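import Pool.Agent.MP_833094_lc.Basic

/-! Baire category along submersions and along a family of hyperplanes. -/

namespace Pool.Agent.MP_833094_lc

open Set Filter Topology Function

section

variable {E F : Type} [NormedAddCommGroup E] [NormedSpace ℝ E] [FiniteDimensional ℝ E]
  [NormedAddCommGroup F] [NormedSpace ℝ F] [FiniteDimensional ℝ F]

omit [FiniteDimensional ℝ E] in
theorem isOpen_surj : IsOpen {f : E →L[ℝ] F | Surjective f} := by
  convert isOpen_setOfPred_nat_le_rank (𝕜 := ℝ) (E := E) (F := F) (Module.finrank ℝ F) using 1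
  ext f
  change Surjective f ↔ (Module.finrank ℝ F : Cardinal) ≤ Module.rank ℝ (LinearMap.range (f : E →ₗ[ℝ] F))
  rw [← Module.finrank_eq_rank, Nat.cast_le]
  refine ⟨fun h => ?_, fun h => ?_⟩
  · rw [LinearMap.range_eq_top.2 h, finrank_top]
  · exact LinearMap.range_eq_top.1
      (Submodule.eq_top_of_finrank_eq (le_antisymm (Submodule.finrank_le _) h))

theorem meagre_pre {φ : E → F} {W : Set E} (hW : IsOpen W)
    (h : ∀ u ∈ W, ∃ φ' : E →L[ℝ] F, HasStrictFDerivAt φ φ' u ∧ Surjective φ') {M : Set F}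
    (hM : IsMeagre M) : IsMeagre (W ∩ φ ⁻¹' M) := by
  have hc : Continuous (W.domRestrict φ) := continuousOn_iff_continuous_domRestrict.1 fun u hu => by
    obtain ⟨_, a, -⟩ := h u hu
    exact a.continuousAt.continuousWithinAt
  have ho : IsOpenMap (W.domRestrict φ) := isOpenMap_iff_nhds_le.2 fun u => by
    obtain ⟨_, a, b⟩ := h u u.2
    rw [domRestrict_eq, ← map_map, hW.isOpenEmbedding_subtypeVal.map_nhds_eq,
      a.map_nhds_eq_of_surj (LinearMap.range_eq_top.2 b)]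
    exact le_rfl
  convert (hM.preimage_of_isOpenMap hc ho).image_val using 1
  ext u
  simp [and_comm]

omit [NormedSpace ℝ E] [FiniteDimensional ℝ E] in
theorem residual_of_local [SecondCountableTopology E] {X : Set E}
    (h : ∀ O₀, IsOpen O₀ → O₀.Nonempty → ∃ O, O ⊆ O₀ ∧ IsOpen O ∧ O.Nonempty ∧ IsMeagre (O \ X)) :
    X ∈ residual E := by
  obtain ⟨T, hT, hs, hU⟩ := TopologicalSpace.isOpen_sUnion_countable
    {O | IsOpen O ∧ IsMeagre (O \ X)} fun _ h => h.1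
  have h1 : ⋃₀ T ∈ residual E := by
    refine residual_of_dense_open (isOpen_sUnion fun t ht => (hs ht).1) ?_
    rw [hU]
    refine dense_iff_inter_open.2 fun O₀ a b => ?_
    obtain ⟨O, c, d, ⟨x, hx⟩, e⟩ := h O₀ a b
    exact ⟨x, c hx, O, ⟨d, e⟩, hx⟩
  have h2 : IsMeagre (⋃ t ∈ T, t \ X) := isMeagre_biUnion hT fun t ht => (hs ht).2
  filter_upwards [h1, h2] with x ⟨t, ht, hx⟩ hn
  by_contra hX
  exact hn (mem_biUnion ht ⟨hx, hX⟩)

/-- On `O`, off the preimage of a meagre set under a submersion to a space of smaller dimension,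
`P` has the truth value `β`. -/
def Loc (P : E → Prop) (O : Set E) (β : Prop) : Prop :=
  ∃ (e : ℕ) (π : E → Fin e → ℝ) (M : Set (Fin e → ℝ)), e < Module.finrank ℝ E ∧ IsMeagre M ∧
    ContDiffOn ℝ 1 π O ∧ (∀ y ∈ O, Surjective (fderiv ℝ π y)) ∧ ∀ y ∈ O, π y ∉ M → (P y ↔ β)

variable (l : ℕ → E →L[ℝ] ℝ) (e₀ : E)

/-- Projection to the hyperplane `l q = b`. -/
def prj (q : ℕ) (b : ℝ) (z : E) : E := z + (b - l q z) • e₀

/-- `B` is comeagre near `x` in all hyperplanes `l q = b`, for almost all `q`. -/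
def Large (x : E) (B : Set E) : Prop :=
  ∀ᶠ q in cofinite, ∃ O, IsOpen O ∧ x ∈ O ∧ ∀ b, IsMeagre (prj l e₀ q b ⁻¹' (O \ B))

variable {l e₀}

omit [FiniteDimensional ℝ E] in
theorem Large.mono {x : E} {B B' : Set E} (h : Large l e₀ x B) (hB : B ⊆ B') : Large l e₀ x B' :=
  Eventually.mono h fun _ ⟨O, a, b, c⟩ => ⟨O, a, b, fun t =>
    (c t).mono (preimage_mono (sdiff_subset_sdiff_right hB))⟩

omit [FiniteDimensional ℝ E] in
theorem Large.univ (x : E) : Large l e₀ x univ :=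
  Eventually.of_forall fun _ => ⟨Set.univ, isOpen_univ, trivial, fun _ => by
    simpa using IsMeagre.empty⟩

omit [FiniteDimensional ℝ E] in
theorem Large.inter {x : E} {B B' : Set E} (h : Large l e₀ x B) (h' : Large l e₀ x B') :
    Large l e₀ x (B ∩ B') := by
  filter_upwards [h, h'] with q ⟨O, a, b, c⟩ ⟨O', a', b', c'⟩
  refine ⟨O ∩ O', a.inter a', ⟨b, b'⟩, fun t => ((c t).union (c' t)).mono fun z hz => ?_⟩
  by_cases hB : prj l e₀ q t z ∈ B
  · exact Or.inr ⟨hz.1.2, fun h => hz.2 ⟨hB, h⟩⟩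
  · exact Or.inl ⟨hz.1.1, hB⟩

omit [FiniteDimensional ℝ E] in
theorem prj_deriv (q : ℕ) (b : ℝ) (z : E) : HasStrictFDerivAt (prj l e₀ q b)
    (ContinuousLinearMap.id ℝ E - (l q).smulRight e₀) z := by
  have : prj l e₀ q b = fun z => (ContinuousLinearMap.id ℝ E - (l q).smulRight e₀) z + b • e₀ := by
    ext z; simp [prj, sub_smul]; abel
  rw [this]
  exact (ContinuousLinearMap.hasStrictFDerivAt _).add_const _

theorem Large.meets (h1 : ∀ q, l q e₀ = 1) {x : E} {B : Set E} (h : Large l e₀ x B) :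
    ∃ y ∈ B, ∃ (q : ℕ) (r : ℚ), l q y = r := by
  obtain ⟨q, O, a, b, c⟩ := h.exists
  have hc : Continuous fun t : ℝ => prj l e₀ q t x := by unfold prj; fun_prop
  obtain ⟨r, hr⟩ := Rat.denseRange_cast.exists_mem_open (a.preimage hc)
    ⟨l q x, by simpa [prj] using b⟩
  have hp : Continuous (prj l e₀ q r) :=
    continuous_iff_continuousAt.2 fun z => (prj_deriv q r z).continuousAt
  by_contra hn
  refine not_isMeagre_of_isOpen (a.preimage hp) ⟨x, hr⟩ ((c r).mono fun z hz => ?_)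
  exact mem_preimage.2 ⟨hz, fun hB => hn ⟨_, hB, q, r, by simp [prj, h1]⟩⟩

theorem large_of_loc (h2 : ∀ v, v ≠ 0 → {q | l q v = 0}.Finite) {P : E → Prop}
    (h : ∀ O₀, IsOpen O₀ → O₀.Nonempty → ∃ O β, O ⊆ O₀ ∧ IsOpen O ∧ O.Nonempty ∧ Loc P O β) :
    ∀ᶠ x in residual E, Large l e₀ x {y | P y ↔ P x} := by
  refine residual_of_local fun O₀ a b => ?_
  obtain ⟨O, β, s, hO, ne, e, π, M, he, hM, hπ, hs, hP⟩ := h O₀ a b
  have hd : ∀ y ∈ O, HasStrictFDerivAt π (fderiv ℝ π y) y := fun y hy =>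
    (hπ.contDiffAt (hO.mem_nhds hy)).hasStrictFDerivAt one_ne_zero
  refine ⟨O, s, hO, ne, (meagre_pre hO (fun u hu => ⟨_, hd u hu, hs u hu⟩) hM).mono ?_⟩
  rintro x ⟨hx, hn⟩
  refine ⟨hx, by_contra fun hxM => hn ?_⟩
  obtain ⟨v, hv, hv0⟩ : ∃ v, fderiv ℝ π x v = 0 ∧ v ≠ 0 := by
    obtain ⟨v, a, b⟩ := (Submodule.ne_bot_iff _).1 (LinearMap.ker_ne_bot_of_finrank_lt
      (f := (fderiv ℝ π x : E →ₗ[ℝ] Fin e → ℝ)) (by simpa using he))
    exact ⟨v, a, b⟩
  filter_upwards [(h2 v hv0).compl_mem_cofinite] with q (hq : l q v ≠ 0)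
  set L := ContinuousLinearMap.id ℝ E - (l q).smulRight e₀ with hL
  have hc : ContinuousOn (fun y => (fderiv ℝ π y).comp L) O :=
    (hπ.continuousOn_fderiv_of_isOpen hO le_rfl).clm_comp continuousOn_const
  have hO' := hc.isOpen_inter_preimage hO isOpen_surj
  refine ⟨_, hO', ⟨hx, fun w => ?_⟩, fun b => ?_⟩
  · obtain ⟨z, rfl⟩ := hs x hx w
    refine ⟨z - (l q z / l q v) • v, ?_⟩
    simp [hL, hv, hq]
  · have hp : Continuous (prj l e₀ q b) :=
      continuous_iff_continuousAt.2 fun z => (prj_deriv q b z).continuousAt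
    refine (meagre_pre (φ := π ∘ prj l e₀ q b) (hO'.preimage hp) (fun u hu =>
      ⟨_, (hd _ hu.1).comp u (prj_deriv q b u), hu.2⟩) hM).mono fun z hz => ?_
    refine (mem_inter_iff ..).2 ⟨hz.1, by_contra fun hzM => ?_⟩
    exact hz.2 ((hP _ hz.1.1 hzM).trans (hP x hx hxM).symm)

/-- `C¹` on a dense open set. -/
def Nice (f : E → ℝ) : Prop := ∃ D, IsOpen D ∧ Dense D ∧ ContDiffOn ℝ 1 f D

omit [NormedSpace ℝ E] [FiniteDimensional ℝ E] in
theorem zero_or_ne {f : E → ℝ} {O : Set E} (hO : IsOpen O) (hne : O.Nonempty)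
    (hf : ContinuousOn f O) : ∃ O', O' ⊆ O ∧ IsOpen O' ∧ O'.Nonempty ∧
      ((∀ y ∈ O', f y = 0) ∨ (∀ y ∈ O', 0 < f y) ∨ ∀ y ∈ O', f y < 0) := by
  by_cases h : ∀ y ∈ O, f y = 0
  · exact ⟨O, Subset.rfl, hO, hne, Or.inl h⟩
  push Not at h
  obtain ⟨y, hy, h⟩ := h
  rcases lt_or_gt_of_ne h with h | h
  · exact ⟨_, inter_subset_left, hf.isOpen_inter_preimage hO isOpen_Iio, ⟨y, hy, h⟩,
      Or.inr (Or.inr fun _ a => a.2)⟩
  · exact ⟨_, inter_subset_left, hf.isOpen_inter_preimage hO isOpen_Ioi, ⟨y, hy, h⟩,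
      Or.inr (Or.inl fun _ a => a.2)⟩

omit [FiniteDimensional ℝ E] in
theorem Nice.op {f g : E → ℝ} (hf : Nice f) (hg : Nice g) (o : Op) :
    Nice fun y => o.ev (f y) (g y) := by
  obtain ⟨D, a, b, c⟩ := hf
  obtain ⟨D', a', b', c'⟩ := hg
  have c₁ := c.mono (inter_subset_left (t := D'))
  have c₂ := c'.mono (inter_subset_right (s := D))
  have hd := b.inter_of_isOpen_left b' a
  cases o with
  | add => exact ⟨_, a.inter a', hd, c₁.add c₂⟩
  | sub => exact ⟨_, a.inter a', hd, c₁.sub c₂⟩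
  | mul => exact ⟨_, a.inter a', hd, c₁.mul c₂⟩
  | div =>
    refine ⟨{y | ContDiffAt ℝ 1 (fun y => f y / g y) y}, isOpen_iff_mem_nhds.2 fun y hy =>
      ContDiffAt.eventually hy (by simp), dense_iff_inter_open.2 fun O h₁ h₂ => ?_,
      fun y hy => ContDiffAt.contDiffWithinAt hy⟩
    obtain ⟨O', s, o, ⟨y, hy⟩, h⟩ := zero_or_ne (h₁.inter (a.inter a'))
      (hd.inter_open_nonempty O h₁ h₂) (c₂.continuousOn.mono inter_subset_right)
    refine ⟨y, (s hy).1, show ContDiffAt ℝ 1 (fun y => f y / g y) y from ?_⟩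
    have n := (a.inter a').mem_nhds (s hy).2
    rcases h with h | h | h
    · refine (contDiffAt_const (𝕜 := ℝ) (x := y) (c := (0 : ℝ))).congr_of_eventuallyEq ?_
      filter_upwards [o.mem_nhds hy] with z hz
      simp [h z hz]
    · exact (c₁.contDiffAt n).div (c₂.contDiffAt n) (h y hy).ne'
    · exact (c₁.contDiffAt n).div (c₂.contDiffAt n) (h y hy).ne

omit [FiniteDimensional ℝ E] in
theorem loc_sign (h0 : 0 < Module.finrank ℝ E) {f : E → ℝ} (hf : Nice f) (O₀ : Set E)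
    (a : IsOpen O₀) (b : O₀.Nonempty) :
    ∃ O β, O ⊆ O₀ ∧ IsOpen O ∧ O.Nonempty ∧ Loc (fun y => 0 ≤ f y) O β := by
  obtain ⟨D, d₁, d₂, d₃⟩ := hf
  obtain ⟨O, s, o, ne, h⟩ := zero_or_ne (a.inter d₁) (d₂.inter_open_nonempty O₀ a b)
    (d₃.continuousOn.mono inter_subset_right)
  have : ∃ β : Prop, ∀ y ∈ O, (0 ≤ f y ↔ β) := by
    rcases h with h | h | h
    · exact ⟨True, fun y hy => by simp [h y hy]⟩
    · exact ⟨True, fun y hy => by simp [(h y hy).le]⟩
    · exact ⟨False, fun y hy => by simp [h y hy]⟩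
  obtain ⟨β, hβ⟩ := this
  exact ⟨O, β, fun y hy => (s hy).1, o, ne, 0, fun _ => 0, ∅, h0, IsMeagre.empty,
    contDiffOn_const, fun _ _ w => ⟨0, Subsingleton.elim _ _⟩, fun y hy _ => hβ y hy⟩

end

end Pool.Agent.MP_833094_lc
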