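import Pool.Agent.MP_833094_lc.Ana

/-! Local behaviour of oracle questions. -/

namespace Pool.Agent.MP_833094_lc

open Set Filter Topology Function Metric

variable {E F G : Type} [NormedAddCommGroup E] [NormedSpace ℝ E] [FiniteDimensional ℝ E]
  [NormedAddCommGroup F] [NormedSpace ℝ F] [FiniteDimensional ℝ F]
  [NormedAddCommGroup G] [NormedSpace ℝ G]

/-- Constant rank factorisation. -/
theorem factor {π : E → F} {r : E → G} {O : Set E} (hO : IsOpen O) {y₀ : E} (h0 : y₀ ∈ O)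
    (hπ : ContDiffOn ℝ 1 π O) (hr : DifferentiableOn ℝ r O) (hs : Surjective (fderiv ℝ π y₀))
    (hk : ∀ y ∈ O, ∀ v, fderiv ℝ π y v = 0 → fderiv ℝ r y v = 0) :
    ∃ (O' : Set E) (U : Set F) (σ : F → E), O' ⊆ O ∧ IsOpen O' ∧ IsOpen U ∧ U.Nonempty ∧
      ContDiffOn ℝ 1 σ U ∧ (∀ s ∈ U, σ s ∈ O' ∧ π (σ s) = s) ∧
      ∀ y ∈ O', π y ∈ U ∧ r (σ (π y)) = r y := by
  have := FiniteDimensional.complete ℝ E
  have := FiniteDimensional.complete ℝ F
  obtain ⟨p, hp⟩ := Submodule.ClosedComplemented.of_finiteDimensional (fderiv ℝ π y₀).ker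
  have hp' : p.range = ⊤ := LinearMap.range_eq_top.2 fun x => ⟨x, hp x⟩
  let L := ContinuousLinearMap.equivProdOfSurjectiveOfIsCompl (fderiv ℝ π y₀) p
    (LinearMap.range_eq_top.2 hs) hp' (LinearMap.isCompl_of_proj hp)
  have c0 : ContDiffAt ℝ 1 π y₀ := hπ.contDiffAt (hO.mem_nhds h0)
  have c1 : ContDiffAt ℝ 1 (fun y => (π y, p y)) y₀ := c0.prodMk p.contDiff.contDiffAt
  have c2 : HasFDerivAt (fun y => (π y, p y)) (L : E →L[ℝ] F × (fderiv ℝ π y₀).ker) y₀ :=
    (c0.differentiableAt one_ne_zero).hasFDerivAt.prodMk p.hasFDerivAt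
  set e := c1.toOpenPartialHomeomorph _ c2 one_ne_zero with he
  have ee : ∀ y, e y = (π y, p y) := fun _ => rfl
  have s0 : y₀ ∈ e.source := c1.mem_toOpenPartialHomeomorph_source c2 one_ne_zero
  have c3 : ContDiffAt ℝ 1 e.symm (e y₀) := c1.to_localInverse c2 one_ne_zero
  have n1 : ∀ᶠ z in 𝓝 (e y₀), z ∈ e.target ∧ ContDiffAt ℝ 1 e.symm z ∧ e.symm z ∈ O := by
    refine (e.open_target.eventually_mem (e.map_source s0)).and ((c3.eventually (by simp)).and ?_)
    exact c3.continuousAt.eventually (by rw [e.left_inv s0]; exact hO.eventually_mem h0)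
  obtain ⟨ε, ε0, hε⟩ := Metric.eventually_nhds_iff_ball.1 n1
  rw [ee, ← ball_prod_same] at hε
  have hO' : IsOpen (e.source ∩ e ⁻¹' (ball (π y₀) ε ×ˢ ball (p y₀) ε)) :=
    e.isOpen_inter_preimage (isOpen_ball.prod isOpen_ball)
  have inv : ∀ s ∈ ball (π y₀) ε, ∀ t ∈ ball (p y₀) ε, π (e.symm (s, t)) = s := fun s a t b =>
    congrArg Prod.fst (e.right_inv (hε (s, t) ⟨a, b⟩).1)
  refine ⟨_, ball (π y₀) ε, fun s => e.symm (s, p y₀), fun y hy => ?_, hO', isOpen_ball,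
    nonempty_ball.2 ε0, fun s a => ?_, fun s a => ⟨⟨?_, ?_⟩, inv s a _ (mem_ball_self ε0)⟩,
    fun y hy => ⟨hy.2.1, ?_⟩⟩
  · have := (hε _ hy.2).2.2
    rwa [e.left_inv hy.1] at this
  · exact ((hε (s, p y₀) ⟨a, mem_ball_self ε0⟩).2.1.comp s
      (f := fun s => (s, p y₀)) (by fun_prop)).contDiffWithinAt
  · exact e.map_target (hε (s, p y₀) ⟨a, mem_ball_self ε0⟩).1
  · rw [mem_preimage, e.right_inv (hε (s, p y₀) ⟨a, mem_ball_self ε0⟩).1]
    exact ⟨a, mem_ball_self ε0⟩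
  · have hd : ∀ t ∈ ball (p y₀) ε, DifferentiableAt ℝ (fun t => e.symm (π y, t)) t := fun t b =>
      ((hε (π y, t) ⟨hy.2.1, b⟩).2.1.differentiableAt one_ne_zero).comp t
        (f := fun t => (π y, t)) (by fun_prop)
    have hm : ∀ t ∈ ball (p y₀) ε, e.symm (π y, t) ∈ O := fun t b => (hε (π y, t) ⟨hy.2.1, b⟩).2.2
    have hr' : ∀ t ∈ ball (p y₀) ε, DifferentiableAt ℝ r (e.symm (π y, t)) := fun t b =>
      hr.differentiableAt (hO.mem_nhds (hm t b))
    have key := isOpen_ball.is_const_of_fderiv_eq_zero (𝕜 := ℝ)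
      (f := r ∘ fun t => e.symm (π y, t)) (convex_ball (p y₀) ε).isPreconnected
      (fun t b => ((hr' t b).comp t (hd t b)).differentiableWithinAt) (fun t b => by
        have d1 := ((hπ.contDiffAt (hO.mem_nhds (hm t b))).differentiableAt one_ne_zero)
        have d2 : fderiv ℝ (π ∘ fun t => e.symm (π y, t)) t = 0 := by
          have : (π ∘ fun t => e.symm (π y, t)) =ᶠ[𝓝 t] fun _ => π y := by
            filter_upwards [isOpen_ball.mem_nhds b] with u hu using inv _ hy.2.1 u hu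
          rw [this.fderiv_eq]; simp
        rw [fderiv_comp t d1 (hd t b)] at d2
        rw [fderiv_comp t (hr' t b) (hd t b)]
        ext w
        exact hk _ (hm t b) _ (congrArg (· w) d2)) (mem_ball_self ε0) hy.2.2
    simp only [comp] at key
    rw [key]
    exact congrArg r (e.left_inv hy.1)

theorem meagre_dep (K : Subfield ℝ) (hK : (K : Set ℝ).Countable) (d : ℕ) :
    IsMeagre {w : Fin d → ℝ | ¬ AlgebraicIndependent K w} := by
  have : Countable K := hK.to_subtype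
  have : Countable (MvPolynomial (Fin d) K) :=
    (AddMonoidAlgebra.coeff_injective (R := K) (M := Fin d →₀ ℕ)).countable
  have h : ∀ P : MvPolynomial (Fin d) K, P ≠ 0 →
      IsMeagre {w : Fin d → ℝ | MvPolynomial.aeval w P = 0} := fun P hP => by
    have e : ∀ w : Fin d → ℝ, MvPolynomial.aeval w P =
        MvPolynomial.eval w (MvPolynomial.map (algebraMap K ℝ) P) := fun w => by
      rw [MvPolynomial.eval_map, MvPolynomial.aeval_def]
    simp only [e]
    have hc := isClosed_eq (MvPolynomial.continuous_eval (MvPolynomial.map (algebraMap K ℝ) P))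
      (continuous_const (y := (0 : ℝ)))
    refine IsNowhereDense.isMeagre ((hc.isNowhereDense_iff).2 ?_)
    by_contra hne
    obtain ⟨x, hx⟩ := nonempty_iff_ne_empty.2 hne
    obtain ⟨ε, ε0, hε⟩ := Metric.mem_nhds_iff.1 (mem_interior_iff_mem_nhds.1 hx)
    refine hP (MvPolynomial.map_injective _ (algebraMap K ℝ).injective ?_)
    rw [map_zero]
    refine MvPolynomial.funext_set (fun i => ball (x i) ε) (fun i => ?_) fun w hw => ?_
    · rw [Real.ball_eq_Ioo]; exact Ioo_infinite (by linarith)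
    · rw [map_zero]
      exact hε (by rwa [ball_pi _ ε0])
  refine (isMeagre_biUnion (to_countable {P : MvPolynomial (Fin d) K | P ≠ 0}) h).mono
    fun w hw => ?_
  rw [mem_ofPred_eq, algebraicIndependent_iff] at hw
  push Not at hw
  obtain ⟨P, a, b⟩ := hw
  exact mem_biUnion b a

omit [FiniteDimensional ℝ E] in
theorem nice_on {k : ℕ} {r : Fin k → E → ℝ} (hr : ∀ i, Nice (r i)) {O : Set E} (a : IsOpen O)
    (b : O.Nonempty) : ∃ O', O' ⊆ O ∧ IsOpen O' ∧ O'.Nonempty ∧ ∀ i, ContDiffOn ℝ 1 (r i) O' := by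
  induction k generalizing O with
  | zero => exact ⟨O, Subset.rfl, a, b, fun i => i.elim0⟩
  | succ k ih =>
    obtain ⟨D, d₁, d₂, d₃⟩ := hr 0
    obtain ⟨O', s, o, ne, h⟩ := ih (fun i => hr i.succ) (a.inter d₁) (d₂.inter_open_nonempty O a b)
    exact ⟨O', fun y hy => (s hy).1, o, ne, Fin.cases (d₃.mono fun y hy => (s hy).2) h⟩

theorem loc_ask {K : Subfield ℝ} (hK : (K : Set ℝ).Countable) {A : Set (List ℝ)} (hT : Tame A)
    {n : ℕ} (hR : RankLE K n A) (hE : n + 1 < Module.finrank ℝ E) {k : ℕ} {r : Fin k → E → ℝ}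
    (hr : ∀ i, Nice (r i)) (O₀ : Set E) (a : IsOpen O₀) (b : O₀.Nonempty) :
    ∃ O β, O ⊆ O₀ ∧ IsOpen O ∧ O.Nonempty ∧ Loc (fun y => List.ofFn (r · y) ∈ A) O β := by
  classical
  obtain ⟨O₁, s₁, o₁, ⟨y₁, hy₁⟩, c₁⟩ := nice_on hr a b
  let Q : ℕ → Prop := fun d => ∃ (ι : Fin d → Fin k), ∃ y ∈ O₁,
    Surjective (fderiv ℝ (fun y i => r (ι i) y) y)
  have q0 : Q 0 := ⟨Fin.elim0, y₁, hy₁, fun w => ⟨0, Subsingleton.elim _ _⟩⟩
  have hle := Nat.findGreatest_le (P := Q) (n + 1)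
  have hmax := fun m => @Nat.findGreatest_is_greatest m Q _ (n + 1)
  have hQ := Nat.findGreatest_spec (P := Q) (Nat.zero_le (n + 1)) q0
  generalize Nat.findGreatest Q (n + 1) = d at hle hmax hQ
  obtain ⟨ι, y₀, h0, hs⟩ := hQ
  have cπ : ∀ {d : ℕ} (ι : Fin d → Fin k), ContDiffOn ℝ 1 (fun y i => r (ι i) y) O₁ :=
    fun ι => contDiffOn_pi.2 fun i => c₁ _
  have dπ : ∀ {d : ℕ} (ι : Fin d → Fin k), ∀ y ∈ O₁, ∀ v i,
      fderiv ℝ (fun y i => r (ι i) y) y v i = fderiv ℝ (r (ι i)) y v := fun ι y hy v i => by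
    rw [fderiv_pi fun i => ((c₁ _).contDiffAt (o₁.mem_nhds hy)).differentiableAt one_ne_zero]
    rfl
  have o₂ := ((cπ ι).continuousOn_fderiv_of_isOpen o₁ le_rfl).isOpen_inter_preimage o₁ isOpen_surj
  rcases hle.eq_or_lt with rfl | hlt
  · refine ⟨_, False, fun y hy => s₁ hy.1, o₂, ⟨y₀, h0, hs⟩, n + 1, _, _, hE,
      meagre_dep K hK (n + 1), (cπ ι).mono inter_subset_left, fun y hy => hy.2,
      fun y _ hM => iff_false_intro fun hA => hM ?_⟩
    have := hR _ hA fun i => (ι i).cast (by simp)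
    simpa using this
  obtain ⟨O, U, σ, s, o, oU, neU, cσ, hσ, hf⟩ := factor (r := fun y i => r i y) o₂ ⟨h0, hs⟩
    ((cπ ι).mono inter_subset_left)
    (((cπ id).mono inter_subset_left).differentiableOn one_ne_zero) hs (fun y hy v hv => by
      funext j
      refine (dπ id y hy.1 v j).trans (by_contra fun hj => hmax (d + 1) (by omega) hlt
        ⟨Fin.cons j ι, y, hy.1, fun w => ?_⟩)
      obtain ⟨z, hz⟩ := hy.2 (Fin.tail w)
      refine ⟨z + ((w 0 - fderiv ℝ (r j) y z) / fderiv ℝ (r j) y v) • v, funext fun i => ?_⟩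
      rw [dπ _ y hy.1]
      refine Fin.cases ?_ (fun i => ?_) i
      · have hj' : fderiv ℝ (r j) y v ≠ 0 := hj
        simp [hj']
      · have e1 := (dπ ι y hy.1 z i).symm.trans (congrFun hz i)
        have e2 := (dπ ι y hy.1 v i).symm.trans (congrFun hv i)
        simp [e1, e2, Fin.tail])
  have hB := hT d k ι U (fun s i => r i (σ s)) oU
    ((cπ id).comp cσ fun t ht => (s (hσ t ht).1).1) fun t ht i => congrFun (hσ t ht).2 i
  obtain ⟨u, ou, hu⟩ := hB.residualEq_isOpen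
  obtain ⟨U₁, β, o₃, ⟨t, ht⟩, s₃, hβ⟩ : ∃ (U₁ : Set (Fin d → ℝ)) (β : Prop), IsOpen U₁ ∧
      U₁.Nonempty ∧ U₁ ⊆ U ∧ ∀ t ∈ U₁, (t ∈ u ↔ β) := by
    by_cases h : (U ∩ u).Nonempty
    · exact ⟨_, True, oU.inter ou, h, inter_subset_left, fun t ht => iff_true_intro ht.2⟩
    · exact ⟨_, False, oU, neU, Subset.rfl, fun t ht => iff_false_intro fun h' => h ⟨t, ht, h'⟩⟩
  have cO := (cπ ι).mono fun y (hy : y ∈ O) => (s hy).1
  refine ⟨_, β, fun y hy => s₁ (s hy.1).1, cO.continuousOn.isOpen_inter_preimage o o₃,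
    ⟨σ t, (hσ t (s₃ ht)).1, by rwa [mem_preimage, (hσ t (s₃ ht)).2]⟩, d, _,
    {t | t ∈ {u ∈ U | List.ofFn (fun i => r i (σ u)) ∈ A} ↔ t ∈ u}ᶜ, by omega,
    by rw [IsMeagre, compl_compl]; exact hu.mono fun _ h => h.to_iff, cO.mono inter_subset_left,
    fun y hy => (s hy.1).2, fun y hy hM => ?_⟩
  refine Iff.trans ?_ (Iff.trans (not_not.1 hM) (hβ _ hy.2))
  rw [mem_ofPred_eq, show (fun i => r i (σ fun i => r (ι i) y)) = (r · y) from (hf y hy.1).2]
  exact (and_iff_right (hf y hy.1).1).symm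

end Pool.Agent.MP_833094_lc
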