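import Mathlib.Topology.Baire.BaireMeasurable
import Mathlib.RingTheory.AlgebraicIndependent.Defs
import Mathlib.Algebra.Field.Subfield.Defs
import Mathlib.Analysis.Calculus.ContDiff.Defs
import Mathlib.Analysis.Normed.Field.Lemmas

/-!
Oracle BSS machines over the reals, written as while-programs on stacks of reals.
-/

namespace Pool.Agent.MP_833094_lc

/-- The four field operations. -/
inductive Op | add | sub | mul | div

/-- Value of an operation. -/
noncomputable def Op.ev : Op → ℝ → ℝ → ℝ
  | add, a, b => a + b
  | sub, a, b => a - b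
  | mul, a, b => a * b
  | div, a, b => a / b

/-- Tests: sign of the top of a stack, emptiness of a stack, oracle question, negation. -/
inductive Test
  | ge (i : ℕ)
  | empty (i : ℕ)
  | ask (i : ℕ)
  | not (t : Test)

/-- Programs. -/
inductive Prog
  | push (i : ℕ) (c : ℝ)
  | pop (i : ℕ)
  | op (o : Op) (i j k : ℕ)
  | seq (p q : Prog)
  | ite (t : Test) (p q : Prog)
  | loop (t : Test) (p : Prog)

/-- A state: the contents of the stacks. -/
abbrev State := ℕ → List ℝ

/-- Truth of a test in a state, with oracle `A`. -/
def Test.Holds (A : Set (List ℝ)) (s : State) : Test → Prop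
  | ge i => 0 ≤ (s i).headD 0
  | empty i => s i = []
  | ask i => s i ∈ A
  | not t => ¬ t.Holds A s

/-- `Eval A p s s'`: with oracle `A`, the program `p` started in `s` halts in `s'`. -/
inductive Eval (A : Set (List ℝ)) : Prog → State → State → Prop
  | push (i c s) : Eval A (.push i c) s (Function.update s i (c :: s i))
  | pop (i s) : Eval A (.pop i) s (Function.update s i (s i).tail)
  | op (o i j k s) : Eval A (.op o i j k) s
      (Function.update s k (o.ev ((s i).headD 0) ((s j).headD 0) :: s k))
  | seq {p q s s₁ s₂} : Eval A p s s₁ → Eval A q s₁ s₂ → Eval A (.seq p q) s s₂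
  | iteT {t p q s s₁} : t.Holds A s → Eval A p s s₁ → Eval A (.ite t p q) s s₁
  | iteF {t p q s s₁} : ¬ t.Holds A s → Eval A q s s₁ → Eval A (.ite t p q) s s₁
  | loopT {t p s s₁ s₂} : t.Holds A s → Eval A p s s₁ → Eval A (.loop t p) s₁ s₂ →
      Eval A (.loop t p) s s₂
  | loopF {t p s} : ¬ t.Holds A s → Eval A (.loop t p) s s

/-- Start state: the input on stack `0`, all other stacks empty. -/
def init (x : List ℝ) : State := fun i => if i = 0 then x else []

/-- `S ⪯ A`: a program with oracle `A` halts on every input `x`, and leaves stack `1` nonempty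
exactly when `x ∈ S`. -/
def Reduces (S A : Set (List ℝ)) : Prop :=
  ∃ p : Prog, ∀ x, ∃ s, Eval A p (init x) s ∧ (x ∈ S ↔ s 1 ≠ [])

/-- Number of an operation. -/
def Op.code : Op → ℝ
  | add => 0
  | sub => 1
  | mul => 2
  | div => 3

/-- Prefix code of a test. -/
def Test.code : Test → List ℝ
  | ge i => [0, i]
  | empty i => [1, i]
  | ask i => [2, i]
  | not t => 3 :: t.code

/-- Prefix code of a program, with its real constants. -/
def Prog.code : Prog → List ℝ
  | push i c => [0, i, c]
  | pop i => [1, i]
  | op o i j k => [2, o.code, i, j, k]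
  | seq p q => 3 :: (p.code ++ q.code)
  | ite t p q => 4 :: (t.code ++ (p.code ++ q.code))
  | loop t p => 5 :: (t.code ++ p.code)

/-- The real Halting problem: codes of machines (empty oracle) followed by an input on which the
machine halts. -/
def Halting : Set (List ℝ) := {w | ∃ p x s, w = p.code ++ x ∧ Eval ∅ p (init x) s}

/-- `A` has the Baire property on every `C¹` graph: along every `C¹` map `g` from an open subset
of some `ℝ ^ d` to some `ℝ ^ k` such that `d` of the coordinates of `g u` are those of `u`. -/
def Tame (A : Set (List ℝ)) : Prop :=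
  ∀ (d k : ℕ) (ι : Fin d → Fin k) (U : Set (Fin d → ℝ)) (g : (Fin d → ℝ) → Fin k → ℝ), IsOpen U →
    ContDiffOn ℝ 1 g U → (∀ u ∈ U, ∀ i, g u (ι i) = u i) →
      BaireMeasurableSet {u ∈ U | List.ofFn (g u) ∈ A}

/-- Transcendence rank at most `n` over the subfield `K`: any `n + 1` coordinates of a member of
`A` are algebraically dependent over `K`. -/
def RankLE (K : Subfield ℝ) (n : ℕ) (A : Set (List ℝ)) : Prop :=
  ∀ a ∈ A, ∀ f : Fin (n + 1) → Fin a.length, ¬ AlgebraicIndependent K fun i => a.get (f i)

end Pool.Agent.MP_833094_lc
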