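import Mathlib
import Pool.Agent.MP_833094_lc.Defs

/-! Determinism, injectivity of codes, and the Horner macro. -/

namespace Pool.Agent.MP_833094_lc

open Function

variable {A : Set (List ℝ)}

theorem Eval.det {p : Prog} {s s₁ s₂ : State} (h₁ : Eval A p s s₁) (h₂ : Eval A p s s₂) :
    s₁ = s₂ := by
  induction h₁ generalizing s₂ with
  | push => cases h₂; rfl
  | pop => cases h₂; rfl
  | op => cases h₂; rfl
  | seq _ _ i₁ i₂ => cases h₂ with | seq a b => cases i₁ a; exact i₂ b
  | iteT h _ i => cases h₂ with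
    | iteT _ a => exact i a
    | iteF n _ => exact absurd h n
  | iteF h _ i => cases h₂ with
    | iteT n _ => exact absurd n h
    | iteF _ a => exact i a
  | loopT h _ _ i₁ i₂ => cases h₂ with
    | loopT _ a b => cases i₁ a; exact i₂ b
    | loopF n => exact absurd h n
  | loopF h => cases h₂ with
    | loopT n _ _ => exact absurd n h
    | loopF _ => rfl

/-- Partial correctness of a loop. -/
theorem Eval.loop_inv {t : Test} {p : Prog} (I : State → Prop)
    (hI : ∀ s s', I s → t.Holds A s → Eval A p s s' → I s') {s s' : State}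
    (h : Eval A (.loop t p) s s') (h0 : I s) : I s' ∧ ¬ t.Holds A s' := by
  generalize hq : Prog.loop t p = q at h
  induction h with
  | loopT a b _ _ i => cases hq; exact i (hI _ _ h0 a b) rfl
  | loopF a => cases hq; exact ⟨h0, a⟩
  | _ => cases hq

theorem Op.code_inj {o o' : Op} (h : o.code = o'.code) : o = o' := by
  cases o <;> cases o' <;> first | rfl | (norm_num [Op.code] at h)

theorem Test.code_inj {t t' : Test} {x x' : List ℝ} (h : t.code ++ x = t'.code ++ x') :
    t = t' ∧ x = x' := by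
  induction t generalizing t' with
  | not u i =>
    cases t' with
    | not u' =>
      simp only [Test.code, List.cons_append, List.cons.injEq, true_and] at h
      obtain ⟨rfl, rfl⟩ := i h; exact ⟨rfl, rfl⟩
    | _ => norm_num [Test.code] at h
  | _ => cases t' <;> simp_all [Test.code]

theorem Prog.code_inj {p p' : Prog} {x x' : List ℝ} (h : p.code ++ x = p'.code ++ x') :
    p = p' ∧ x = x' := by
  induction p generalizing p' x x' with
  | push i c => cases p' <;> simp_all [Prog.code]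
  | pop i => cases p' <;> simp_all [Prog.code]
  | op o i j k =>
    cases p' with
    | op o' i' j' k' =>
      simp only [Prog.code, List.cons_append, List.cons.injEq, true_and, Nat.cast_inj,
        List.nil_append] at h
      obtain ⟨h1, rfl, rfl, rfl, rfl⟩ := h
      cases Op.code_inj h1; exact ⟨rfl, rfl⟩
    | _ => norm_num [Prog.code] at h
  | seq a b ia ib =>
    cases p' with
    | seq a' b' =>
      simp only [Prog.code, List.cons_append, List.cons.injEq, true_and, List.append_assoc] at h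
      obtain ⟨rfl, h'⟩ := ia h
      obtain ⟨rfl, rfl⟩ := ib h'; exact ⟨rfl, rfl⟩
    | _ => norm_num [Prog.code] at h
  | ite t a b ia ib =>
    cases p' with
    | ite t' a' b' =>
      simp only [Prog.code, List.cons_append, List.cons.injEq, true_and, List.append_assoc] at h
      obtain ⟨rfl, h₁⟩ := Test.code_inj h
      obtain ⟨rfl, h₂⟩ := ia h₁
      obtain ⟨rfl, rfl⟩ := ib h₂; exact ⟨rfl, rfl⟩
    | _ => norm_num [Prog.code] at h
  | loop t a ia =>
    cases p' with
    | loop t' a' =>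
      simp only [Prog.code, List.cons_append, List.cons.injEq, true_and, List.append_assoc] at h
      obtain ⟨rfl, h₁⟩ := Test.code_inj h
      obtain ⟨rfl, rfl⟩ := ia h₁; exact ⟨rfl, rfl⟩
    | _ => norm_num [Prog.code] at h

theorem mem_halting {p : Prog} {x : List ℝ} :
    p.code ++ x ∈ Halting ↔ ∃ s, Eval ∅ p (init x) s := by
  refine ⟨fun ⟨p', x', s, e, h⟩ => ?_, fun ⟨s, h⟩ => ⟨p, x, s, rfl, h⟩⟩
  obtain ⟨rfl, rfl⟩ := Prog.code_inj e
  exact ⟨s, h⟩

/-- Horner value of a list at `q`, from the start value `a`. -/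
def hor {R : Type*} [Mul R] [Add R] (q a : R) (x : List R) : R := x.foldl (fun a c => a * q + c) a

/-- Sequential composition of a list of programs. -/
def sq : List Prog → Prog
  | [] => .pop 15
  | [p] => p
  | p :: l => .seq p (sq l)

/-- First pass: `y := y * q + c`, move `c` to stack 9, double register 5. -/
def pass1 : Prog := .loop (.not (.empty 0))
  (sq [.op .mul 6 3 6, .op .add 6 0 6, .op .add 0 15 9, .pop 0, .op .add 5 5 5])

/-- Second pass: move stack 9 back to stack 0. -/
def pass2 : Prog := .loop (.not (.empty 9)) (sq [.op .add 9 15 0, .pop 9])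

theorem pass1_spec (x : List ℝ) : ∀ s : State, s 0 = x → s 15 = [] → ∃ s', Eval A pass1 s s' ∧
    s' 0 = [] ∧ s' 9 = x.reverse ++ s 9 ∧
    (s' 6).headD 0 = hor ((s 3).headD 0) ((s 6).headD 0) x ∧
    (s' 5).headD 0 = 2 ^ x.length * (s 5).headD 0 ∧
    ∀ i, i ≠ 0 → i ≠ 5 → i ≠ 6 → i ≠ 9 → s' i = s i := by
  induction x with
  | nil =>
    intro s h0 _
    exact ⟨s, .loopF (by simp [Test.Holds, h0]), h0, by simp, by simp [hor], by simp,
      fun _ _ _ _ _ => rfl⟩
  | cons c x ih =>
    intro s h0 hz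
    obtain ⟨s₁, e₁, a0, a15, a9, a6, a5, a3, fr⟩ : ∃ s₁, Eval A (sq [.op .mul 6 3 6, .op .add 6 0 6,
        .op .add 0 15 9, .pop 0, .op .add 5 5 5]) s s₁ ∧ s₁ 0 = x ∧ s₁ 15 = [] ∧
        s₁ 9 = c :: s 9 ∧ (s₁ 6).headD 0 = (s 6).headD 0 * (s 3).headD 0 + c ∧
        (s₁ 5).headD 0 = 2 * (s 5).headD 0 ∧ s₁ 3 = s 3 ∧
        ∀ i, i ≠ 0 → i ≠ 5 → i ≠ 6 → i ≠ 9 → s₁ i = s i := by
      refine ⟨_, .seq (.op ..) (.seq (.op ..) (.seq (.op ..) (.seq (.pop ..) (.op ..)))), ?_⟩
      simp +contextual [h0, hz, Op.ev, two_mul]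
    obtain ⟨s', e, b0, b9, b6, b5, fr'⟩ := ih s₁ a0 a15
    refine ⟨s', .loopT (by simp [Test.Holds, h0]) e₁ e, b0, by simp [b9, a9], ?_, ?_,
      fun i h₁ h₂ h₃ h₄ => (fr' i h₁ h₂ h₃ h₄).trans (fr i h₁ h₂ h₃ h₄)⟩
    · rw [b6, a6, a3]; rfl
    · rw [b5, a5, List.length_cons]; ring

theorem pass2_spec (x : List ℝ) : ∀ s : State, s 9 = x → s 15 = [] → ∃ s', Eval A pass2 s s' ∧
    s' 9 = [] ∧ s' 0 = x.reverse ++ s 0 ∧ ∀ i, i ≠ 0 → i ≠ 9 → s' i = s i := by
  induction x with
  | nil =>
    intro s h0 _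
    exact ⟨s, .loopF (by simp [Test.Holds, h0]), h0, by simp, fun _ _ _ => rfl⟩
  | cons c x ih =>
    intro s h0 hz
    obtain ⟨s₁, e₁, a9, a15, a0, fr⟩ : ∃ s₁, Eval A (sq [.op .add 9 15 0, .pop 9]) s s₁ ∧ s₁ 9 = x ∧
        s₁ 15 = [] ∧ s₁ 0 = c :: s 0 ∧ ∀ i, i ≠ 0 → i ≠ 9 → s₁ i = s i := by
      refine ⟨_, .seq (.op ..) (.pop ..), ?_⟩
      simp +contextual [h0, hz, Op.ev]
    obtain ⟨s', e, b9, b0, fr'⟩ := ih s₁ a9 a15
    exact ⟨s', .loopT (by simp [Test.Holds, h0]) e₁ e, b9, by simp [b0, a0],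
      fun i h₁ h₂ => (fr' i h₁ h₂).trans (fr i h₁ h₂)⟩

/-- Horner evaluation of the input at register 3 into register 6; the input is kept. -/
def horner : Prog := (sq [.push 6 0, pass1, pass2])

theorem horner_spec (s : State) (h9 : s 9 = []) (hz : s 15 = []) : ∃ s', Eval A horner s s' ∧
    (s' 6).headD 0 = hor ((s 3).headD 0) 0 (s 0) ∧
    (s' 5).headD 0 = 2 ^ (s 0).length * (s 5).headD 0 ∧ ∀ i, i ≠ 5 → i ≠ 6 → s' i = s i := by
  obtain ⟨s₁, e₁, a0, a9, a6, a5, fr⟩ := pass1_spec (A := A) (s 0) (update s 6 (0 :: s 6))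
    (by simp) (by simp [hz])
  obtain ⟨s₂, e₂, b9, b0, fr'⟩ := pass2_spec (A := A) _ s₁ rfl (by rw [fr] <;> simp [hz])
  refine ⟨s₂, .seq (.push ..) (.seq e₁ e₂), by rw [fr' 6 (by simp) (by simp), a6]; simp,
    by rw [fr' 5 (by simp) (by simp), a5]; simp, fun i h5 h6 => ?_⟩
  by_cases h0 : i = 0
  · subst h0; rw [b0, a9, a0]; simp [h9]
  by_cases h9' : i = 9
  · subst h9'; rw [b9, h9]
  rw [fr' i h0 h9', fr i h0 h5 h6 h9', update_of_ne h6]

/-- A nonzero list has fewer Horner roots than entries. -/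
theorem hor_roots {R : Type*} [Field R] [CharZero R] (x : List R) (hx : ∃ c ∈ x, c ≠ 0) :
    ∃ B : Finset ℕ, B.card < x.length ∧ ∀ q : ℕ, q ∉ B → hor (q : R) 0 x ≠ 0 := by
  classical
  have key : ∀ x : List R, ∃ P : Polynomial R, P.degree < x.length ∧
      (∀ q, P.eval q = hor q 0 x) ∧ (P = 0 → ∀ c ∈ x, c = 0) := by
    intro x
    induction x using List.reverseRecOn with
    | nil => exact ⟨0, by simp, by simp [hor], by simp⟩
    | append_singleton x c ih =>
      obtain ⟨P, h1, h2, h3⟩ := ih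
      refine ⟨P * Polynomial.X + Polynomial.C c, ?_, fun q => ?_, fun h => ?_⟩
      · refine (Polynomial.degree_add_le _ _).trans_lt (max_lt ?_ ?_)
        · rw [Polynomial.degree_mul_X, List.length_append, List.length_singleton]
          push_cast
          exact WithBot.add_lt_add_right (by simp) h1
        · exact Polynomial.degree_C_le.trans_lt (by simp; norm_cast; omega)
      · simp [hor, List.foldl_append, h2]
      · have hc : c = 0 := by simpa using congrArg (Polynomial.eval 0) h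
        have : P = 0 := by simpa [hc] using h
        intro d hd
        rcases List.mem_append.1 hd with hd | hd
        · exact h3 this d hd
        · simpa [hc] using hd
  obtain ⟨P, h1, h2, h3⟩ := key x
  have hP : P ≠ 0 := fun h => by obtain ⟨c, hc, hn⟩ := hx; exact hn (h3 h c hc)
  refine ⟨P.roots.toFinset.preimage (Nat.cast : ℕ → R) Nat.cast_injective.injOn, ?_, fun q hq h => ?_⟩
  · have a := Finset.card_le_card_of_injOn (Nat.cast : ℕ → R)
      (s := P.roots.toFinset.preimage (Nat.cast : ℕ → R) Nat.cast_injective.injOn)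
      (t := P.roots.toFinset) (fun a ha => by simpa using ha) Nat.cast_injective.injOn
    have b := (Multiset.toFinset_card_le P.roots).trans (Polynomial.card_roots' P)
    have c := (Polynomial.natDegree_lt_iff_degree_lt hP).2 h1
    omega
  · exact hq (by simp [hP, h2, h])

end Pool.Agent.MP_833094_lc
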