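import Pool.Agent.MP_833094_lc.Rank

/-! Oracles that satisfy the hypotheses of the rank theorem. -/

namespace Pool.Agent.MP_833094_lc

open Set Filter Topology Function

variable {A : Set (List ℝ)}

/-- Borel sets are tame. -/
theorem tame_of_borel (h : ∀ k, MeasurableSet {v : Fin k → ℝ | List.ofFn v ∈ A}) : Tame A := by
  intro d k _ U g hU hg _
  have := hU.measurableSet.subtype_image
    ((continuousOn_iff_continuous_domRestrict.1 hg.continuousOn).measurable (h k))
  refine Eq.subst (Set.ext fun u => ?_) this.baireMeasurableSet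
  simp [and_comm]

/-- Countable sets are tame. -/
theorem tame_of_countable (h : A.Countable) : Tame A :=
  tame_of_borel fun _ => (h.preimage List.ofFn_injective).measurableSet

/-- A countable set has rank `0` over a countable field. -/
theorem rank_of_countable (h : A.Countable) :
    ∃ K : Subfield ℝ, (K : Set ℝ).Countable ∧ RankLE K 0 A := by
  have hc : (⋃ a ∈ A, {c | c ∈ a}).Countable := h.biUnion fun a _ => a.finite_toSet.countable
  refine ⟨Subfield.closure (⋃ a ∈ A, {c | c ∈ a}), ?_, fun a ha f hf => ?_⟩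
  · exact Cardinal.le_aleph0_iff_set_countable.1 ((Subfield.cardinalMk_closure_le_max _).trans
      (max_le (Cardinal.le_aleph0_iff_set_countable.2 hc) le_rfl))
  · exact hf.transcendental 0 (isAlgebraic_algebraMap (⟨a.get (f 0), Subfield.subset_closure
      (mem_biUnion ha (List.get_mem ..))⟩ : Subfield.closure _))

/-- A set of vectors of length at most `n` has rank at most `n`. -/
theorem rank_of_length (K : Subfield ℝ) {n : ℕ} (h : ∀ a ∈ A, a.length ≤ n) : RankLE K n A := by
  intro a ha f hf
  have := Fintype.card_le_of_injective f (Injective.of_comp (f := a.get) hf.injective)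
  have := h a ha
  simp only [Fintype.card_fin] at *
  omega

/-- A subset of the line with the Baire property is tame. -/
theorem tame_of_line {B : Set ℝ} (h : BaireMeasurableSet B) : Tame ((fun a => [a]) '' B) := by
  intro d k ι U g hU _ hg
  by_cases hk : k = 1
  · subst hk
    rcases d with _ | _ | d
    · exact (to_countable _).measurableSet.baireMeasurableSet
    · have := hU.baireMeasurableSet.inter
        (h.preimage (continuous_apply (0 : Fin 1)) (isOpenMap_eval (0 : Fin 1)))
      refine Eq.subst (Set.ext fun u => and_congr_right fun hu => ?_) this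
      simp [← hg u hu 0, Subsingleton.elim (ι 0) 0]
    · refine IsMeagre.baireMeasurableSet (Eq.subst (eq_empty_of_forall_notMem fun u hu => ?_).symm
        IsMeagre.empty)
      have hc : Continuous fun t : ℝ => update u 0 t := continuous_const.update 0 continuous_id
      obtain ⟨t, a, b⟩ := (dense_compl_singleton (u 0)).exists_mem_open (hU.preimage hc)
        ⟨u 0, by simpa using hu.1⟩
      have e : ∀ v ∈ U, v 0 = v 1 := fun v hv => by
        rw [← hg v hv 0, ← hg v hv 1, Subsingleton.elim (ι 0) (ι 1)]
      exact a (by simpa [← e u hu.1] using e _ b)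
  · refine IsMeagre.baireMeasurableSet (Eq.subst (eq_empty_of_forall_notMem ?_).symm IsMeagre.empty)
    rintro u ⟨-, a, -, e⟩
    exact hk (by simpa using (congrArg List.length e).symm)

/-- Halting sets are Borel. -/
theorem borel_halts (p : Prog) (k : ℕ) :
    MeasurableSet {v : Fin k → ℝ | ∃ s, Eval ∅ p (init (List.ofFn v)) s} := by
  obtain ⟨S, s0, sc, sn, so⟩ := exists_closed (E := Fin k → ℝ) Measurable
    (fun o f g a b => by
      cases o
      exacts [a.add b, a.sub b, a.mul b, a.div b])
    (range (fun i y => y i) ∪ (fun c _ => c) '' {c | c ∈ 0 :: p.code})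
    ((countable_range _).union ((List.finite_toSet _).countable.image _)) (by
      rintro _ (⟨i, rfl⟩ | ⟨c, -, rfl⟩)
      exacts [measurable_pi_apply i, measurable_const])
  let G : Set (Set (Fin k → ℝ)) := image2 (fun f (b : Prop) => {y | 0 ≤ f y ↔ b}) S univ
  have hG : G.Countable := sc.image2 countable_univ _
  have hm : ∀ g ∈ G, MeasurableSet g := by
    rintro _ ⟨f, hf, b, -, rfl⟩
    have := measurableSet_le measurable_const (sn f hf) (f := fun _ => (0 : ℝ))
    by_cases h : b
    · simpa [h] using this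
    · simpa [h, compl_ofPred] using this.compl
  have hc : ∀ c ∈ {c | c ∈ 0 :: p.code}, ∃ t : S, ∀ y, t.1 y = c :=
    fun c h => ⟨⟨_, s0 (Or.inr ⟨c, h, rfl⟩)⟩, fun _ => rfl⟩
  have hi : ∀ y, init (List.ofFn y) = sem (fun (t : S) y => t.1 y)
      (fun i => if i = 0 then List.ofFn fun j => ⟨_, s0 (Or.inl ⟨j, rfl⟩)⟩ else []) y := fun y => by
    funext i
    by_cases h : i = 0 <;> simp [init, sem, h, comp_def]
  set H := {v : Fin k → ℝ | ∃ s, Eval ∅ p (init (List.ofFn v)) s}
  have := MeasurableSet.biUnion (f := fun t => ⋂₀ t) (s := {t | (t.Finite ∧ t ⊆ G) ∧ ⋂₀ t ⊆ H})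
    ((countable_ofPred_finite_subset hG).mono fun _ h => h.1)
    fun t ht => MeasurableSet.sInter ht.1.1.countable fun g hg => hm g (ht.1.2 hg)
  refine Eq.subst (Subset.antisymm (iUnion₂_subset fun t ht => ht.2) ?_) this
  rintro x ⟨s, e⟩
  obtain ⟨σ, -, hσ⟩ := symb (F := generate {g | g ∈ G ∧ x ∈ g}) (x := x) (hc 0 (by simp)) hc
    (fun o a b => ⟨⟨_, so o _ a.2 _ b.2⟩, fun _ => rfl⟩)
    (fun t => mem_generate_of_mem ⟨⟨_, t.2, _, trivial, rfl⟩, Iff.rfl⟩)
    (fun _ => Eventually.of_forall fun _ => Iff.rfl) e (fun c h => by simp [h]) _ (hi x)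
  obtain ⟨t, a, b, c⟩ := mem_generate_iff.1 hσ
  exact mem_biUnion (x := t) ⟨⟨b, fun g hg => (a hg).1⟩, fun y hy => ⟨_, by rw [hi]; exact c hy⟩⟩
    fun g hg => (a hg).2

end Pool.Agent.MP_833094_lc
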