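import Pool.Agent.MP_833094_lc.Basic

/-! A colouring of the reals by natural numbers such that finitely many colours of Horner values,
and one Horner value, determine a vector. -/

namespace Pool.Agent.MP_833094_lc

open Module

theorem hor_sub {R : Type*} [CommRing R] (q : R) (x : List R) : ∀ (x' : List R) (a a' : R),
    x'.length = x.length → hor q (a - a') (List.zipWith (· - ·) x x') = hor q a x - hor q a' x' := by
  induction x with
  | nil => intro x' a a' h; cases List.length_eq_zero_iff.1 h; simp [hor]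
  | cons c x ih =>
    intro x' a a' h
    cases x' with
    | nil => simp at h
    | cons c' x' =>
      have := ih x' (a * q + c) (a' * q + c') (by simpa using h)
      simp only [hor, List.zipWith_cons_cons, List.foldl_cons] at this ⊢
      rw [← this]; congr 1; ring

theorem eq_of_zip {R : Type*} [CommRing R] (x : List R) : ∀ x' : List R, x'.length = x.length →
    (∀ c ∈ List.zipWith (· - ·) x x', c = 0) → x' = x := by
  induction x with
  | nil => intro x' h _; exact List.length_eq_zero_iff.1 h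
  | cons c x ih =>
    intro x' h hz
    cases x' with
    | nil => simp at h
    | cons c' x' =>
      simp only [List.zipWith_cons_cons, List.mem_cons, forall_eq_or_imp] at hz
      rw [ih x' (by simpa using h) hz.2, sub_eq_zero.1 hz.1]

variable {ι : Type*} (b : Basis ι ℚ ℝ)

theorem repr_hor (q : ℕ) (t : ι) (x : List ℝ) : ∀ a : ℝ,
    b.repr (hor (q : ℝ) a x) t = hor (q : ℚ) (b.repr a t) (x.map fun c => b.repr c t) := by
  induction x with
  | nil => intro a; rfl
  | cons c x ih =>
    intro a
    have := ih (a * q + c)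
    simp only [hor, List.foldl_cons, List.map_cons] at this ⊢
    rw [this, show a * (q : ℝ) = (q : ℚ) • a by rw [Rat.smul_def, mul_comm]; simp]
    simp [mul_comm]

theorem hor_zero {R : Type*} [Semiring R] (q : R) (x : List R) (h : ∀ c ∈ x, c = 0) :
    hor q 0 x = 0 := by
  induction x with
  | nil => rfl
  | cons c x ih =>
    simp only [List.mem_cons, forall_eq_or_imp] at h
    simpa [hor, h.1] using ih h.2

theorem exists_colour : ∃ ν : ℝ → ℕ,
    (∀ y y', ν y = ν y' → (b.repr y).support.card = (b.repr y').support.card) ∧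
    ∀ y y', (b.repr y).support = (b.repr y').support → ν y = ν y' → y = y' := by
  have : ∀ s : Finset ι, ∃ e : ℝ → ℕ, Set.InjOn e {y | (b.repr y).support = s} := fun s => by
    refine Set.countable_iff_exists_injOn.1 (Set.MapsTo.countable_of_injOn
      (f := fun y (i : s) => b.repr y i) (t := Set.univ) (Set.mapsTo_univ _ _) ?_
      Set.countable_univ)
    intro y hy y' hy' h
    refine b.repr.injective (Finsupp.ext fun i => ?_)
    by_cases hi : i ∈ s
    · exact congrFun h ⟨i, hi⟩
    · rw [Finsupp.notMem_support_iff.1 (hy ▸ hi), Finsupp.notMem_support_iff.1 (hy' ▸ hi)]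
  choose e he using this
  refine ⟨fun y => Nat.pair (b.repr y).support.card (e (b.repr y).support y),
    fun y y' h => (Nat.pair_eq_pair.1 h).1, fun y y' hs h => ?_⟩
  have := (Nat.pair_eq_pair.1 h).2
  rw [← hs] at this
  exact he _ rfl hs.symm this

theorem joint_support (x : List ℝ) : ∃ S : Finset ι, ∃ B : Finset ℕ,
    (∀ q : ℕ, (b.repr (hor (q : ℝ) 0 x)).support ⊆ S) ∧ B.card ≤ S.card * x.length ∧
    (∀ q : ℕ, q ∉ B → (b.repr (hor (q : ℝ) 0 x)).support = S) ∧
    S.card ≤ ∑ j ∈ Finset.range x.length, (b.repr (hor (j : ℝ) 0 x)).support.card := by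
  classical
  let S : Finset ι := x.toFinset.biUnion fun c => (b.repr c).support
  have hS : ∀ t, t ∈ S ↔ ∃ c ∈ x.map fun c => b.repr c t, c ≠ 0 := fun t => by simp [S]
  have h1 : ∀ q : ℕ, (b.repr (hor (q : ℝ) 0 x)).support ⊆ S := fun q t ht => by
    by_contra hn
    rw [Finsupp.mem_support_iff, repr_hor] at ht
    refine ht ?_
    rw [map_zero, Finsupp.zero_apply]
    exact hor_zero _ _ fun c hc => by_contra fun h => hn ((hS t).2 ⟨c, hc, h⟩)
  have h2 : ∀ t, ∃ B : Finset ℕ, t ∈ S → B.card < x.length ∧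
      ∀ q : ℕ, q ∉ B → t ∈ (b.repr (hor (q : ℝ) 0 x)).support := fun t => by
    by_cases ht : t ∈ S
    · obtain ⟨B, a, c⟩ := hor_roots _ ((hS t).1 ht)
      refine ⟨B, fun _ => ⟨by simpa using a, fun q hq => ?_⟩⟩
      rw [Finsupp.mem_support_iff, repr_hor]
      simpa using c q hq
    · exact ⟨∅, fun h => absurd h ht⟩
  choose B hB using h2
  refine ⟨S, S.biUnion B, h1, Finset.card_biUnion_le_card_mul _ _ _ fun t ht => (hB t ht).1.le,
    fun q hq => (h1 q).antisymm fun t ht => (hB t ht).2 q fun h => hq ?_, ?_⟩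
  · exact Finset.mem_biUnion.2 ⟨t, ht, h⟩
  · refine (Finset.card_le_card fun t ht => ?_).trans Finset.card_biUnion_le
    obtain ⟨j, hj, hn⟩ := Finset.exists_mem_notMem_of_card_lt_card
      (s := B t) (t := Finset.range x.length) (by simpa using (hB t ht).1)
    exact Finset.mem_biUnion.2 ⟨j, hj, (hB t ht).2 j hn⟩

theorem exists_determining : ∃ ν : ℝ → ℕ, ∀ x : List ℝ, ∃ q : ℕ, ∀ x' : List ℝ,
    x'.length = x.length → (∀ j < q, ν (hor (j : ℝ) 0 x') = ν (hor (j : ℝ) 0 x)) →
    hor (q : ℝ) 0 x' = hor (q : ℝ) 0 x → x' = x := by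
  classical
  let b := Basis.ofVectorSpace ℚ ℝ
  obtain ⟨ν, n1, n2⟩ := exists_colour b
  refine ⟨ν, fun x => ?_⟩
  obtain ⟨S, B, -, -, s3, -⟩ := joint_support b x
  set K := ∑ j ∈ Finset.range x.length, (b.repr (hor (j : ℝ) 0 x)).support.card with hK
  obtain ⟨q, hq, hqB⟩ : ∃ q, B.card + K * x.length + x.length ≤ q ∧ q ∉ B := by
    obtain ⟨q, h1, h2⟩ := (Set.Ici_infinite (B.card + K * x.length + x.length)).exists_notMem_finset B
    exact ⟨q, h1, h2⟩
  refine ⟨q, fun x' hl hν he => ?_⟩
  obtain ⟨S', B', t1, t2, t3, t4⟩ := joint_support b x'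
  have hK' : S'.card ≤ K := by
    rw [hl] at t4
    refine t4.trans (Finset.sum_congr rfl fun j hj => n1 _ _ (hν j ?_)).le
    have := Finset.mem_range.1 hj
    omega
  have hSS : S ⊆ S' := by rw [← s3 q hqB, ← he]; exact t1 q
  refine eq_of_zip x x' hl fun c hc => by_contra fun hc0 => ?_
  obtain ⟨B'', u1, u2⟩ := hor_roots _ ⟨c, hc, hc0⟩
  have : (B ∪ (B' ∪ B'')).card < (Finset.range q).card := by
    have a1 := Finset.card_union_le B (B' ∪ B'')
    have a2 := Finset.card_union_le B' B''
    have a3 : S'.card * x'.length ≤ K * x.length := hl ▸ Nat.mul_le_mul_right _ hK'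
    simp only [List.length_zipWith, hl, min_self] at u1
    rw [Finset.card_range]; omega
  obtain ⟨j, hj, hn⟩ := Finset.exists_mem_notMem_of_card_lt_card this
  simp only [Finset.mem_union, not_or] at hn
  have hj' := hν j (Finset.mem_range.1 hj)
  have hc := n1 _ _ hj'
  rw [s3 j hn.1, t3 j hn.2.1] at hc
  have e : S = S' := Finset.eq_of_subset_of_card_le hSS hc.le
  have := n2 _ _ (by rw [s3 j hn.1, t3 j hn.2.1, e]) hj'
  refine u2 j hn.2.2 ?_
  have h := hor_sub (j : ℝ) x x' 0 0 hl
  rw [sub_zero] at h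
  rw [h, this, sub_self]

end Pool.Agent.MP_833094_lc
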