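import Pool.Agent.MP_833094_lc.Hamel

/-! Every subset of `ℝ^∞` reduces to a subset of the line. -/

namespace Pool.Agent.MP_833094_lc

open Function

/-- Compression of the line into `(0,2]`. -/
noncomputable def cmp (y : ℝ) : ℝ := if 0 ≤ y then 1 / (1 + y) else 1 + 1 / (1 - y)

theorem cmp_bd (y : ℝ) : 0 < cmp y ∧ cmp y ≤ 2 ∧ (0 ≤ y ↔ cmp y ≤ 1) := by
  unfold cmp
  split_ifs with h
  · have : 1 / (1 + y) ≤ 1 := (div_le_one (by linarith)).2 (by linarith)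
    exact ⟨by positivity, by linarith, by simp only [h, this]⟩
  · have h' : 0 < 1 - y := by linarith
    have : 1 / (1 - y) ≤ 1 := (div_le_one h').2 (by linarith)
    have p : 0 < 1 / (1 - y) := by positivity
    exact ⟨by linarith, by linarith, ⟨fun a => absurd a h, fun a => by linarith⟩⟩

theorem cmp_inj {y y' : ℝ} (h : cmp y = cmp y') : y = y' := by
  have a := (cmp_bd y).2.2
  have b := (cmp_bd y').2.2
  rw [h, ← b] at a
  unfold cmp at h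
  by_cases hy : 0 ≤ y
  · rw [if_pos hy, if_pos (a.1 hy), one_div, one_div, inv_inj] at h; linarith
  · rw [if_neg hy, if_neg (mt a.2 hy), add_right_inj, one_div, one_div, inv_inj] at h; linarith

theorem enc_inj {j j' : ℕ} {y y' : ℝ} (h : 2 * (j : ℝ) + cmp y = 2 * j' + cmp y') :
    j = j' ∧ y = y' := by
  obtain ⟨a, b, -⟩ := cmp_bd y
  obtain ⟨c, d, -⟩ := cmp_bd y'
  have h1 : j < j' + 1 := by exact_mod_cast (by linarith : (j : ℝ) < j' + 1)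
  have h2 : j' < j + 1 := by exact_mod_cast (by linarith : (j' : ℝ) < j + 1)
  obtain rfl : j = j' := by omega
  exact ⟨rfl, cmp_inj (by linarith)⟩

/-- Pairing. -/
def pr (a b : ℕ) : ℕ := (2 * a + 1) * 2 ^ b

theorem pr_inj {a b a' b' : ℕ} (h : pr a b = pr a' b') : a = a' ∧ b = b' := by
  induction b generalizing b' with
  | zero =>
    cases b' with
    | zero => simp only [pr, pow_zero] at h; omega
    | succ c => simp only [pr, pow_succ, ← mul_assoc, pow_zero] at h; omega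
  | succ c ih =>
    cases b' with
    | zero => simp only [pr, pow_succ, ← mul_assoc, pow_zero] at h; omega
    | succ c' =>
      have := ih (b' := c') (by simp only [pr, pow_succ, ← mul_assoc] at h ⊢; omega)
      omega

variable (ν : ℝ → ℕ) (S : Set (List ℝ))

/-- The history of the machine at round `q`. -/
noncomputable def V (x : List ℝ) : ℕ → ℕ
  | 0 => pr 0 x.length
  | q + 1 => pr (pr (V x q) (ν (hor (q : ℝ) 0 x))) x.length

theorem V_inj {x x' : List ℝ} {q q' : ℕ} (h : V ν x q = V ν x' q') : q = q' ∧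
    x.length = x'.length ∧ ∀ j < q, ν (hor (j : ℝ) 0 x) = ν (hor (j : ℝ) 0 x') := by
  have pos : ∀ a b, 0 < pr a b := fun a b => by unfold pr; positivity
  induction q generalizing q' with
  | zero =>
    cases q' with
    | zero => exact ⟨rfl, (pr_inj h).2, by simp⟩
    | succ c => exact absurd (pr_inj h).1 (pos _ _).ne
  | succ c ih =>
    cases q' with
    | zero => exact absurd (pr_inj h).1 (pos _ _).ne'
    | succ c' =>
      obtain ⟨h1, h2⟩ := pr_inj (pr_inj h).1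
      obtain ⟨rfl, h3, h4⟩ := ih h1
      refine ⟨rfl, h3, fun j hj => ?_⟩
      rcases Nat.lt_succ_iff_lt_or_eq.1 hj with hj | rfl
      exacts [h4 j hj, h2]

/-- History and value decide membership. -/
def Dec (v : ℕ) (y : ℝ) : Prop := ∀ x q x' q', V ν x q = v → hor (q : ℝ) 0 x = y →
  V ν x' q' = v → hor (q' : ℝ) 0 x' = y → x ∈ S → x' ∈ S

/-- History and value come from a member. -/
def Yes (v : ℕ) (y : ℝ) : Prop := ∃ x q, V ν x q = v ∧ hor (q : ℝ) 0 x = y ∧ x ∈ S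

/-- The three kinds of questions. -/
def Rel (j : ℕ) (y : ℝ) : Prop :=
  (j % 3 = 0 ∧ Dec ν S (j / 3) y) ∨ (j % 3 = 1 ∧ Yes ν S (j / 3) y) ∨ (j % 3 = 2 ∧ ν y = j / 3)

/-- The oracle on the line. -/
def orc : Set ℝ := {z | ∃ (j : ℕ) (y : ℝ), z = 2 * (j : ℝ) + cmp y ∧ Rel ν S j y}

/-- The oracle as a set of vectors. -/
def Orc : Set (List ℝ) := (fun a => [a]) '' orc ν S

theorem mem_Orc (j : ℕ) (y z : ℝ) (hz : z = 2 * (j : ℝ) + cmp y) :
    [z] ∈ Orc ν S ↔ Rel ν S j y := by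
  subst hz
  simp only [Orc, Set.mem_image, List.cons.injEq, and_true, exists_eq_right]
  refine ⟨fun ⟨j', y', e, h⟩ => ?_, fun h => ⟨j, y, rfl, h⟩⟩
  obtain ⟨rfl, rfl⟩ := enc_inj e
  exact h

theorem mem0 (v : ℕ) (y : ℝ) : [6 * (v : ℝ) + cmp y] ∈ Orc ν S ↔ Dec ν S v y := by
  rw [mem_Orc ν S (3 * v) y _ (by push_cast; ring)]; simp [Rel]

theorem mem1 (v : ℕ) (y : ℝ) : [6 * (v : ℝ) + cmp y + 2] ∈ Orc ν S ↔ Yes ν S v y := by
  rw [mem_Orc ν S (3 * v + 1) y _ (by push_cast; ring)]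
  simp [Rel, show (3 * v + 1) / 3 = v by omega]

theorem mem2 (n : ℕ) (y : ℝ) : [cmp y + 4 + 6 * (n : ℝ)] ∈ Orc ν S ↔ ν y = n := by
  rw [mem_Orc ν S (3 * n + 2) y _ (by push_cast; ring)]
  simp [Rel, show (3 * n + 2) / 3 = n by omega]

/-- Start of a round. -/
def prep : Prog := (sq [(sq [.op .add 5 5 5, .push 7 6, .op .add 5 7 5]), horner,
  (sq [.push 7 1, .ite (.ge 6) (sq [.op .add 7 6 4, .op .div 7 4 4])
    (sq [.op .sub 7 6 4, .op .div 7 4 4, .op .add 7 4 4]), .op .add 5 4 8])])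

/-- State before the start of a round. -/
def Pre (x : List ℝ) (q w : ℕ) (s : State) : Prop :=
  s 0 = x ∧ s 9 = [] ∧ s 15 = [] ∧ s 1 = [] ∧ (s 3).headD 0 = q ∧ (s 5).headD 0 = 6 * (w : ℝ) ∧
    s 8 = []

/-- State after the start of a round. -/
def Inv (x : List ℝ) (q v : ℕ) (s : State) : Prop :=
  s 0 = x ∧ s 9 = [] ∧ s 15 = [] ∧ s 1 = [] ∧ (s 3).headD 0 = q ∧ (s 5).headD 0 = 6 * (v : ℝ) ∧
    (s 4).headD 0 = cmp (hor (q : ℝ) 0 x) ∧ s 8 = [6 * (v : ℝ) + cmp (hor (q : ℝ) 0 x)]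

theorem prep_spec {A : Set (List ℝ)} {x : List ℝ} {q w : ℕ} {s : State} (h : Pre x q w s) :
    ∃ s', Eval A prep s s' ∧ Inv x q (pr w x.length) s' := by
  obtain ⟨h0, h9, hz, h1, h3, h5, h8⟩ := h
  obtain ⟨s₁, e₁, a5, fr⟩ : ∃ s₁, Eval A (sq [.op .add 5 5 5, .push 7 6, .op .add 5 7 5]) s s₁ ∧
      (s₁ 5).headD 0 = 6 * (2 * (w : ℝ) + 1) ∧ ∀ i, i ≠ 5 → i ≠ 7 → s₁ i = s i := by
    refine ⟨_, .seq (.op ..) (.seq (.push ..) (.op ..)), ?_⟩
    simp +contextual only [List.headD_eq_head?_getD] at h5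
    simp +contextual [h5, Op.ev]; ring
  obtain ⟨s₂, e₂, b6, b5, fr'⟩ := horner_spec (A := A) s₁ (by rw [fr] <;> simp [h9])
    (by rw [fr] <;> simp [hz])
  rw [fr 3 (by simp) (by simp), fr 0 (by simp) (by simp), h3, h0] at b6
  rw [fr 0 (by simp) (by simp), h0, a5] at b5
  have g : ∀ i, i ≠ 5 → i ≠ 6 → i ≠ 7 → s₂ i = s i := fun i a b c => (fr' i a b).trans (fr i a c)
  have hv : (s₂ 5).headD 0 = 6 * (pr w x.length : ℝ) := by rw [b5, pr]; push_cast; ring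
  simp only [List.headD_eq_head?_getD] at b6 hv h3
  by_cases hy : 0 ≤ hor (q : ℝ) 0 x
  · refine ⟨_, .seq e₁ (.seq e₂ (.seq (.push ..) (.seq (.iteT (by simpa [Test.Holds, b6] using hy)
      (.seq (.op ..) (.op ..))) (.op ..)))), ?_⟩
    simp [Inv, g, h0, h9, hz, h1, h3, h8, hv, b6, Op.ev, cmp, hy]
  · refine ⟨_, .seq e₁ (.seq e₂ (.seq (.push ..) (.seq (.iteF (by simpa [Test.Holds, b6] using hy)
      (.seq (.op ..) (.seq (.op ..) (.op ..)))) (.op ..)))), ?_⟩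
    simp [Inv, g, h0, h9, hz, h1, h3, h8, hv, b6, Op.ev, cmp, hy]

/-- Search for the colour. -/
def sloop : Prog := .loop (.not (.ask 8))
  (sq [.op .add 8 7 10, .pop 8, .op .add 10 15 8, .op .add 5 5 5])

theorem sloop_spec (y : ℝ) (d : ℕ) : ∀ (n : ℕ) (s : State), n + d = ν y → s 15 = [] →
    (s 7).headD 0 = 6 → s 8 = [cmp y + 4 + 6 * (n : ℝ)] → ∃ s', Eval (Orc ν S) sloop s s' ∧
    (s' 8).tail = [] ∧ (s' 5).headD 0 = 2 ^ d * (s 5).headD 0 ∧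
    ∀ i, i ≠ 5 → i ≠ 8 → i ≠ 10 → s' i = s i := by
  induction d with
  | zero =>
    intro n s hn _ _ h8
    exact ⟨s, .loopF (by simp [Test.Holds, h8, mem2, ← hn]), by simp [h8], by simp,
      fun _ _ _ _ => rfl⟩
  | succ d ih =>
    intro n s hn hz h7 h8
    obtain ⟨s₁, e₁, az, a7, a8, a5, fr⟩ : ∃ s₁, Eval (Orc ν S)
        (sq [.op .add 8 7 10, .pop 8, .op .add 10 15 8, .op .add 5 5 5]) s s₁ ∧ s₁ 15 = [] ∧
        (s₁ 7).headD 0 = 6 ∧ s₁ 8 = [cmp y + 4 + 6 * ((n + 1 : ℕ) : ℝ)] ∧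
        (s₁ 5).headD 0 = 2 * (s 5).headD 0 ∧ ∀ i, i ≠ 5 → i ≠ 8 → i ≠ 10 → s₁ i = s i := by
      refine ⟨_, .seq (.op ..) (.seq (.pop ..) (.seq (.op ..) (.op ..))), ?_⟩
      simp only [List.headD_eq_head?_getD] at h7
      simp +contextual [hz, h7, h8, Op.ev, two_mul]; ring
    obtain ⟨s', e, b8, b5, fr'⟩ := ih (n + 1) s₁ (by omega) az a7 a8
    refine ⟨s', .loopT (by simp [Test.Holds, h8, mem2, ← hn]) e₁ e, b8, by rw [b5, a5]; ring,
      fun i a b c => (fr' i a b c).trans (fr i a b c)⟩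

/-- One round. -/
def round : Prog := (sq [(sq [.pop 8, .push 7 4, .op .add 4 7 8, .op .add 5 5 5, .push 7 6,
  .op .add 5 7 5]), sloop, (sq [.pop 8, .push 7 1, .op .add 3 7 3]), prep])

theorem round_spec {x : List ℝ} {q : ℕ} {s : State} (h : Inv x q (V ν x q) s) :
    ∃ s', Eval (Orc ν S) round s s' ∧ Inv x (q + 1) (V ν x (q + 1)) s' := by
  obtain ⟨h0, h9, hz, h1, h3, h5, h4, h8⟩ := h
  obtain ⟨s₁, e₁, a7, a8, a5, fr⟩ : ∃ s₁, Eval (Orc ν S) (sq [.pop 8, .push 7 4, .op .add 4 7 8,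
      .op .add 5 5 5, .push 7 6, .op .add 5 7 5]) s s₁ ∧ (s₁ 7).headD 0 = 6 ∧
      s₁ 8 = [cmp (hor (q : ℝ) 0 x) + 4 + 6 * ((0 : ℕ) : ℝ)] ∧
      (s₁ 5).headD 0 = 6 * (2 * (V ν x q : ℝ) + 1) ∧
      ∀ i, i ≠ 5 → i ≠ 7 → i ≠ 8 → s₁ i = s i := by
    refine ⟨_, .seq (.pop ..) (.seq (.push ..) (.seq (.op ..) (.seq (.op ..)
      (.seq (.push ..) (.op ..))))), ?_⟩
    simp only [List.headD_eq_head?_getD] at h5 h4
    simp +contextual [h4, h5, h8, Op.ev]; ring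
  obtain ⟨s₂, e₂, b8, b5, fr'⟩ := sloop_spec ν S _ _ 0 s₁ (zero_add _) (by rw [fr] <;> simp [hz])
    a7 a8
  have g : ∀ i, i ≠ 5 → i ≠ 7 → i ≠ 8 → i ≠ 10 → s₂ i = s i :=
    fun i a b c d => (fr' i a c d).trans (fr i a b c)
  have hv : (s₂ 5).headD 0 = 6 * (pr (V ν x q) (ν (hor (q : ℝ) 0 x)) : ℝ) := by
    rw [b5, a5, pr]; push_cast; ring
  obtain ⟨s₃, e₃, p₃⟩ : ∃ s₃, Eval (Orc ν S) (sq [.pop 8, .push 7 1, .op .add 3 7 3]) s₂ s₃ ∧
      Pre x (q + 1) (pr (V ν x q) (ν (hor (q : ℝ) 0 x))) s₃ := by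
    refine ⟨_, .seq (.pop ..) (.seq (.push ..) (.op ..)), ?_⟩
    simp only [List.headD_eq_head?_getD] at hv h3
    simp [Pre, g, h0, h9, hz, h1, h3, hv, b8, Op.ev]
  obtain ⟨s₄, e₄, p₄⟩ := prep_spec (A := Orc ν S) p₃
  exact ⟨s₄, .seq e₁ (.seq e₂ (.seq e₃ e₄)), p₄⟩

theorem main_loop {x : List ℝ} (d : ℕ) : ∀ (q : ℕ) (s : State), Inv x q (V ν x q) s →
    Dec ν S (V ν x (q + d)) (hor ((q + d : ℕ) : ℝ) 0 x) →
    ∃ s' q', Eval (Orc ν S) (.loop (.not (.ask 8)) round) s s' ∧ Inv x q' (V ν x q') s' ∧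
      Dec ν S (V ν x q') (hor (q' : ℝ) 0 x) := by
  have stop : ∀ (q : ℕ) (s : State), Inv x q (V ν x q) s → Dec ν S (V ν x q) (hor (q : ℝ) 0 x) →
      Eval (Orc ν S) (.loop (.not (.ask 8)) round) s s := fun q s h hd =>
    .loopF (by simpa [Test.Holds, h.2.2.2.2.2.2.2, mem0] using hd)
  induction d with
  | zero => exact fun q s h hd => ⟨s, q, stop q s h hd, h, hd⟩
  | succ d ih =>
    intro q s h hd
    by_cases hq : Dec ν S (V ν x q) (hor (q : ℝ) 0 x)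
    · exact ⟨s, q, stop q s h hq, h, hq⟩
    obtain ⟨s₁, e₁, h₁⟩ := round_spec ν S h
    obtain ⟨s', q', e, r⟩ := ih (q + 1) s₁ h₁ (by rwa [show q + 1 + d = q + (d + 1) by omega])
    exact ⟨s', q', .loopT (by simpa [Test.Holds, h.2.2.2.2.2.2.2, mem0] using hq) e₁ e, r⟩

theorem line_oracle (S : Set (List ℝ)) : ∃ B : Set ℝ, Reduces S ((fun a => [a]) '' B) := by
  obtain ⟨ν, hν⟩ := exists_determining
  refine ⟨orc ν S, (sq [prep, .loop (.not (.ask 8)) round,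
    (sq [.push 7 2, .op .add 8 7 10, .pop 8, .op .add 10 15 8]),
    .ite (.ask 8) (.push 1 0) (.pop 1)]), fun x => ?_⟩
  obtain ⟨s₁, e₁, h₁⟩ := prep_spec (A := Orc ν S) (x := x) (q := 0) (w := 0) (s := init x)
    (by simp [Pre, init])
  obtain ⟨q, hq⟩ := hν x
  obtain ⟨s₂, q', e₂, ⟨-, -, hz, h1, -, -, -, h8⟩, hd⟩ := main_loop ν S q 0 s₁ h₁ (by
    rw [zero_add]
    intro x₁ q₁ x₂ q₂ a b c d
    obtain ⟨rfl, a1, a2⟩ := V_inj ν a
    obtain ⟨rfl, c1, c2⟩ := V_inj ν c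
    rw [hq x₁ a1 a2 b, hq x₂ c1 c2 d]; exact id)
  obtain ⟨s₃, e₃, a8, a1⟩ : ∃ s₃, Eval (Orc ν S) (sq [.push 7 2, .op .add 8 7 10, .pop 8,
      .op .add 10 15 8]) s₂ s₃ ∧ s₃ 8 = [6 * (V ν x q' : ℝ) + cmp (hor (q' : ℝ) 0 x) + 2] ∧
      s₃ 1 = [] := by
    refine ⟨_, .seq (.push ..) (.seq (.op ..) (.seq (.pop ..) (.op ..))), ?_⟩
    simp [hz, h1, h8, Op.ev]
  have hy : Test.Holds (Orc ν S) s₃ (.ask 8) ↔ x ∈ S := by
    simp only [Test.Holds, a8, mem1]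
    exact ⟨fun ⟨x', q₁, a, b, c⟩ => hd x' q₁ x q' a b rfl rfl c, fun h => ⟨x, q', rfl, rfl, h⟩⟩
  by_cases hx : x ∈ S
  · exact ⟨_, .seq e₁ (.seq e₂ (.seq e₃ (.iteT (hy.2 hx) (.push ..)))), by simp [hx]⟩
  · exact ⟨_, .seq e₁ (.seq e₂ (.seq e₃ (.iteF (mt hy.1 hx) (.pop ..)))), by simp [hx, a1]⟩

end Pool.Agent.MP_833094_lc
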