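import Pool.Agent.MP_833094_lc.Basic

/-! Symbolic execution, and a machine that looks for a rational value of a linear form. -/

namespace Pool.Agent.MP_833094_lc

open Function Filter

variable {A : Set (List ℝ)}

section symb

variable {T E : Type} (val : T → E → ℝ)

/-- Value of a symbolic state. -/
def sem (σ : ℕ → List T) (y : E) : State := fun i => (σ i).map (val · y)

theorem sem_update (σ : ℕ → List T) (y : E) (i : ℕ) (L : List T) :
    sem val (update σ i L) y = update (sem val σ y) i (L.map (val · y)) := by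
  funext j
  by_cases h : j = i
  · subst h; simp [sem]
  · simp [sem, h]

variable {val} {C : Set ℝ} {x : E} {F : Filter E}

theorem sem_head (h0 : ∃ t, ∀ y, val t y = 0) (σ : ℕ → List T) (i : ℕ) :
    ∃ t, ∀ y, (sem val σ y i).headD 0 = val t y := by
  obtain ⟨z, hz⟩ := h0
  refine ⟨(σ i).headD z, fun y => ?_⟩
  unfold sem
  cases σ i <;> simp [hz]

theorem symb_test (h0 : ∃ t, ∀ y, val t y = 0)
    (hge : ∀ t, ∀ᶠ y in F, (0 ≤ val t y ↔ 0 ≤ val t x))
    (hask : ∀ L : List T, ∀ᶠ y in F, (L.map (val · y) ∈ A ↔ L.map (val · x) ∈ A))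
    (t : Test) (σ : ℕ → List T) :
    ∀ᶠ y in F, (t.Holds A (sem val σ y) ↔ t.Holds A (sem val σ x)) := by
  induction t with
  | ge i =>
    obtain ⟨t, ht⟩ := sem_head h0 σ i
    simpa only [Test.Holds, ht] using hge t
  | empty i => exact Eventually.of_forall fun y => by simp [Test.Holds, sem]
  | ask i => exact hask (σ i)
  | not t ih => exact ih.mono fun y => not_congr

theorem symb (h0 : ∃ t, ∀ y, val t y = 0) (hc : ∀ c ∈ C, ∃ t, ∀ y, val t y = c)
    (hop : ∀ (o : Op) a b, ∃ t, ∀ y, val t y = o.ev (val a y) (val b y))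
    (hge : ∀ t, ∀ᶠ y in F, (0 ≤ val t y ↔ 0 ≤ val t x))
    (hask : ∀ L : List T, ∀ᶠ y in F, (L.map (val · y) ∈ A ↔ L.map (val · x) ∈ A))
    {p : Prog} {s s' : State} (h : Eval A p s s') (hp : ∀ c ∈ p.code, c ∈ C) :
    ∀ σ, s = sem val σ x →
      ∃ σ', s' = sem val σ' x ∧ ∀ᶠ y in F, Eval A p (sem val σ y) (sem val σ' y) := by
  have ht := symb_test h0 hge hask
  induction h with
  | push i c s =>
    rintro σ rfl
    obtain ⟨t, e⟩ := hc c (hp c (by simp [Prog.code]))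
    have : ∀ y, sem val (update σ i (t :: σ i)) y = update (sem val σ y) i (c :: sem val σ y i) :=
      fun y => by rw [sem_update, List.map_cons, e]; rfl
    exact ⟨_, (this x).symm, Eventually.of_forall fun y => this y ▸ .push ..⟩
  | pop i s =>
    rintro σ rfl
    have : ∀ y, sem val (update σ i (σ i).tail) y = update (sem val σ y) i (sem val σ y i).tail :=
      fun y => by rw [sem_update, List.map_tail]; rfl
    exact ⟨_, (this x).symm, Eventually.of_forall fun y => this y ▸ .pop ..⟩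
  | op o i j k s =>
    rintro σ rfl
    obtain ⟨a, ha⟩ := sem_head h0 σ i
    obtain ⟨b, hb⟩ := sem_head h0 σ j
    obtain ⟨t, e⟩ := hop o a b
    have : ∀ y, sem val (update σ k (t :: σ k)) y = update (sem val σ y) k
        (o.ev ((sem val σ y i).headD 0) ((sem val σ y j).headD 0) :: sem val σ y k) :=
      fun y => by rw [sem_update, List.map_cons, e, ha, hb]; rfl
    exact ⟨_, (this x).symm, Eventually.of_forall fun y => this y ▸ .op ..⟩
  | seq _ _ i₁ i₂ =>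
    intro σ e
    obtain ⟨σ₁, e₁, a⟩ := i₁ (fun c h => hp c (by simp [Prog.code, h])) σ e
    obtain ⟨σ₂, e₂, b⟩ := i₂ (fun c h => hp c (by simp [Prog.code, h])) σ₁ e₁
    exact ⟨σ₂, e₂, (a.and b).mono fun y h => .seq h.1 h.2⟩
  | iteT h _ i =>
    rintro σ rfl
    obtain ⟨σ₁, e₁, a⟩ := i (fun c h => hp c (by simp [Prog.code, h])) σ rfl
    exact ⟨σ₁, e₁, (a.and (ht _ σ)).mono fun y g => .iteT (g.2.2 h) g.1⟩
  | iteF h _ i =>
    rintro σ rfl
    obtain ⟨σ₁, e₁, a⟩ := i (fun c h => hp c (by simp [Prog.code, h])) σ rfl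
    exact ⟨σ₁, e₁, (a.and (ht _ σ)).mono fun y g => .iteF (mt g.2.1 h) g.1⟩
  | loopT h _ _ i₁ i₂ =>
    rintro σ rfl
    obtain ⟨σ₁, e₁, a⟩ := i₁ (fun c h => hp c (by simp [Prog.code, h])) σ rfl
    obtain ⟨σ₂, e₂, b⟩ := i₂ hp σ₁ e₁
    exact ⟨σ₂, e₂, ((a.and b).and (ht _ σ)).mono fun y g => .loopT (g.2.2 h) g.1.1 g.1.2⟩
  | loopF h =>
    rintro σ rfl
    exact ⟨σ, rfl, (ht _ σ).mono fun y g => .loopF (mt g.1 h)⟩

end symb

/-- Nonpositive or an integer. -/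
def Bad (w : ℝ) : Prop := w ≤ 0 ∨ ∃ n : ℕ, w = n

/-- Subtract `1` from register 6 as long as it is at least `1`. -/
def red : Prog := .loop (.ge 10) (sq [.op .sub 6 8 6, .op .sub 6 8 10])

theorem red_spec (n : ℕ) : ∀ (s : State) (w : ℝ), w < n + 1 → (s 6).headD 0 = w →
    (s 10).headD 0 = w - 1 → (s 8).headD 0 = 1 → ∃ s', Eval A red s s' ∧
      ((s' 6).headD 0 ≤ 0 ↔ Bad w) ∧ ∀ i, i ≠ 6 → i ≠ 10 → s' i = s i := by
  have stop : ∀ (s : State) (w : ℝ), w < 1 → (s 6).headD 0 = w → (s 10).headD 0 = w - 1 →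
      ∃ s', Eval A red s s' ∧ ((s' 6).headD 0 ≤ 0 ↔ Bad w) ∧ ∀ i, i ≠ 6 → i ≠ 10 → s' i = s i := by
    intro s w h a b
    refine ⟨s, .loopF (by rw [Test.Holds, b]; linarith), ?_, fun _ _ _ => rfl⟩
    rw [a]
    refine ⟨Or.inl, ?_⟩
    rintro (g | ⟨m, rfl⟩)
    · exact g
    · exact_mod_cast (by exact_mod_cast Nat.lt_one_iff.1 (by exact_mod_cast h) : m = 0).le
  induction n with
  | zero => exact fun s w h a b _ => stop s w (by simpa using h) a b
  | succ n ih =>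
    intro s w h a b c
    rcases lt_or_ge w 1 with g | g
    · exact stop s w g a b
    obtain ⟨s₁, e₁, a6, a10, fr⟩ : ∃ s₁, Eval A (sq [.op .sub 6 8 6, .op .sub 6 8 10]) s s₁ ∧
        (s₁ 6).headD 0 = w - 1 ∧ (s₁ 10).headD 0 = w - 1 - 1 ∧
        ∀ i, i ≠ 6 → i ≠ 10 → s₁ i = s i := by
      refine ⟨_, .seq (.op ..) (.op ..), ?_⟩
      simp only [List.headD_eq_head?_getD] at a c
      simp +contextual [a, c, Op.ev]
    obtain ⟨s', e, b6, fr'⟩ := ih s₁ (w - 1) (by push_cast at h; linarith) a6 a10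
      (by rw [fr 8 (by simp) (by simp), c])
    refine ⟨s', .loopT (by rw [Test.Holds, b]; linarith) e₁ e, b6.trans ⟨?_, ?_⟩,
      fun i u v => (fr' i u v).trans (fr i u v)⟩
    · rintro (u | ⟨m, u⟩)
      · exact Or.inr ⟨1, by push_cast; linarith⟩
      · exact Or.inr ⟨m + 1, by push_cast; linarith⟩
    · rintro (u | ⟨_ | m, u⟩)
      · linarith
      · push_cast at u; linarith
      · exact Or.inr ⟨m, by push_cast at u; linarith⟩

/-- The next pair. -/
def od (p : ℕ × ℕ) : ℕ × ℕ := if p.2 + 1 < p.1 then (p.1, p.2 + 1) else (p.1 + 1, 0)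

theorem od_reach (N : ℕ) : ∀ q ≤ N, ∃ k, od^[k + 1] (0, 0) = (N + 1, q) := by
  have step : ∀ N, (∃ k, od^[k + 1] (0, 0) = (N + 1, 0)) →
      ∀ q ≤ N, ∃ k, od^[k + 1] (0, 0) = (N + 1, q) := fun N h q hq => by
    induction q with
    | zero => exact h
    | succ q ih =>
      obtain ⟨k, e⟩ := ih (by omega)
      exact ⟨k + 1, by rw [iterate_succ_apply', e, od, if_pos (by dsimp only; omega)]⟩
  induction N with
  | zero => exact step 0 ⟨0, rfl⟩
  | succ N ih =>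
    obtain ⟨k, e⟩ := ih N le_rfl
    exact step _ ⟨k + 1, by rw [iterate_succ_apply', e, od, if_neg (by simp)]⟩

/-- One round of the search. -/
def rnd : Prog := sq [sq [.push 8 1, .op .add 3 8 3, .op .sub 3 4 10,
  .ite (.ge 10) (sq [.op .add 4 8 4, .push 3 0]) (.pop 15)], horner,
  sq [.op .mul 4 6 6, .op .sub 6 8 10], red, .op .sub 15 6 7]

/-- State between two rounds. -/
def Btw (x : List ℝ) (p : ℕ × ℕ) (s : State) : Prop :=
  s 0 = x ∧ s 9 = [] ∧ s 15 = [] ∧ (s 3).headD 0 = p.2 ∧ (s 4).headD 0 = p.1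

theorem rnd_spec {x : List ℝ} {p : ℕ × ℕ} {s : State} (h : Btw x p s) :
    ∃ s', Eval A rnd s s' ∧ Btw x (od p) s' ∧
      (0 ≤ (s' 7).headD 0 ↔ Bad ((od p).1 * hor ((od p).2 : ℝ) 0 x)) := by
  obtain ⟨h0, h9, hz, h3, h4⟩ := h
  obtain ⟨s₁, e₁, ⟨a0, a9, az, a3, a4⟩, a8⟩ : ∃ s₁, Eval A (sq [.push 8 1, .op .add 3 8 3,
      .op .sub 3 4 10, .ite (.ge 10) (sq [.op .add 4 8 4, .push 3 0]) (.pop 15)]) s s₁ ∧
      Btw x (od p) s₁ ∧ (s₁ 8).headD 0 = 1 := by
    simp only [List.headD_eq_head?_getD] at h3 h4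
    by_cases c : p.2 + 1 < p.1
    · have c' : (p.2 : ℝ) + 1 < p.1 := by exact_mod_cast c
      refine ⟨_, .seq (.push ..) (.seq (.op ..) (.seq (.op ..) (.iteF ?_ (.pop ..)))), ?_⟩
      · simpa [Test.Holds, Op.ev, h3, h4] using c'
      · simp [Btw, od, c, h0, h9, hz, h3, h4, Op.ev]
    · have c' : (p.1 : ℝ) ≤ p.2 + 1 := by exact_mod_cast not_lt.1 c
      refine ⟨_, .seq (.push ..) (.seq (.op ..) (.seq (.op ..)
        (.iteT ?_ (.seq (.op ..) (.push ..))))), ?_⟩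
      · simpa [Test.Holds, Op.ev, h3, h4] using c'
      · simp [Btw, od, c, h0, h9, hz, h3, h4, Op.ev]
  obtain ⟨s₂, e₂, b6, -, fr⟩ := horner_spec (A := A) s₁ a9 az
  rw [a3, a0] at b6
  set w := ((od p).1 : ℝ) * hor ((od p).2 : ℝ) 0 x with hw
  obtain ⟨s₃, e₃, c6, c10, fr'⟩ : ∃ s₃, Eval A (sq [.op .mul 4 6 6, .op .sub 6 8 10]) s₂ s₃ ∧
      (s₃ 6).headD 0 = w ∧ (s₃ 10).headD 0 = w - 1 ∧ ∀ i, i ≠ 6 → i ≠ 10 → s₃ i = s₂ i := by
    refine ⟨_, .seq (.op ..) (.op ..), ?_⟩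
    simp only [List.headD_eq_head?_getD] at a4 a8 b6
    simp +contextual [fr, a4, a8, b6, Op.ev, hw]
  obtain ⟨n, hn⟩ := exists_nat_gt w
  obtain ⟨s₄, e₄, d6, fr''⟩ := red_spec (A := A) n s₃ w (by linarith) c6 c10
    (by rw [fr' 8 (by simp) (by simp), fr 8 (by simp) (by simp), a8])
  have g : ∀ i, i ≠ 5 → i ≠ 6 → i ≠ 10 → s₄ i = s₁ i := fun i a b c =>
    ((fr'' i b c).trans (fr' i b c)).trans (fr i a b)
  refine ⟨_, .seq e₁ (.seq e₂ (.seq e₃ (.seq e₄ (.op ..)))), ?_, ?_⟩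
  · simp only [List.headD_eq_head?_getD] at a3 a4
    simp [Btw, g, a0, a9, az, a3, a4]
  · rw [← d6]
    simp [g, az, Op.ev]

/-- The machine. -/
def rat : Prog := .seq (.push 7 (-1)) (.loop (.not (.ge 7)) rnd)

theorem rat_halts {x : List ℝ} {q : ℕ} {r : ℚ} (h : hor (q : ℝ) 0 x = r) :
    ∃ s, Eval A rat (init x) s := by
  have key : ∀ (k : ℕ) (p : ℕ × ℕ) (s : State), Btw x p s →
      Bad ((od^[k + 1] p).1 * hor ((od^[k + 1] p).2 : ℝ) 0 x) →
      ∃ s', Eval A (.loop (.not (.ge 7)) rnd) s s' := by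
    intro k
    induction k with
    | zero =>
      intro p s a b
      by_cases c : Test.Holds A s (.not (.ge 7))
      · obtain ⟨s₁, e, -, d⟩ := rnd_spec (A := A) a
        exact ⟨s₁, .loopT c e (.loopF (not_not.2 (d.2 b)))⟩
      · exact ⟨s, .loopF c⟩
    | succ k ih =>
      intro p s a b
      by_cases c : Test.Holds A s (.not (.ge 7))
      · obtain ⟨s₁, e, d, -⟩ := rnd_spec (A := A) a
        obtain ⟨s₂, e'⟩ := ih _ s₁ d b
        exact ⟨s₂, .loopT c e e'⟩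
      · exact ⟨s, .loopF c⟩
  obtain ⟨N, hN⟩ : ∃ N, r.den * (q + 1) = N + 1 :=
    Nat.exists_eq_succ_of_ne_zero (mul_ne_zero r.den_nz (by omega))
  obtain ⟨k, e⟩ := od_reach N q (by have := r.den_pos; nlinarith)
  obtain ⟨s, hs⟩ := key k (0, 0) (update (init x) 7 (-1 :: init x 7)) (by simp [Btw, init]) (by
    rw [e, h, ← hN]
    have : ((r.den * (q + 1) : ℕ) : ℝ) * r = ((r.num * (q + 1) : ℤ) : ℝ) := by
      have := r.den_nz
      rw [Rat.cast_def]; push_cast; field_simp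
    rw [this]
    rcases le_total (r.num * (q + 1) : ℤ) 0 with g | g
    · exact Or.inl (by exact_mod_cast g)
    · obtain ⟨m, hm⟩ := Int.eq_ofNat_of_zero_le g
      exact Or.inr ⟨m, by rw [hm]; simp⟩)
  exact ⟨s, .seq (.push ..) hs⟩

theorem rat_runs {x : List ℝ} (h : ∀ q : ℕ, 0 < hor (q : ℝ) 0 x ∧ Irrational (hor (q : ℝ) 0 x))
    (s : State) : ¬ Eval A rat (init x) s := by
  intro e
  cases e with
  | seq a b =>
    cases a
    have := b.loop_inv (fun s => (∃ p, Btw x p s) ∧ ¬ 0 ≤ (s 7).headD 0) (by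
      rintro s s' ⟨⟨p, hp⟩, -⟩ - e
      obtain ⟨s₁, e₁, c, d⟩ := rnd_spec (A := A) hp
      cases e.det e₁
      refine ⟨⟨_, c⟩, fun g => ?_⟩
      have pos : (od p).1 ≠ 0 := by unfold od; split_ifs <;> simp; omega
      rcases d.1 g with u | ⟨m, u⟩
      · exact u.not_gt (mul_pos (by positivity) (h _).1)
      · exact ((h (od p).2).2.natCast_mul pos).ne_nat m u) ⟨⟨(0, 0), by simp [Btw, init]⟩, by simp⟩
    exact this.2 this.1.2

end Pool.Agent.MP_833094_lc
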