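import Pool.Agent.MP_833094_lc.Ask
import Pool.Agent.MP_833094_lc.Mach

/-! The Halting problem is not below a tame oracle of bounded transcendence rank. -/

namespace Pool.Agent.MP_833094_lc

open Set Filter Topology Function

theorem exists_closed {E : Type} (P : (E → ℝ) → Prop)
    (hP : ∀ (o : Op) f g, P f → P g → P fun y => o.ev (f y) (g y)) (C : Set (E → ℝ))
    (hC : C.Countable) (h0 : ∀ f ∈ C, P f) : ∃ S : Set (E → ℝ), C ⊆ S ∧ S.Countable ∧
      (∀ f ∈ S, P f) ∧ ∀ (o : Op), ∀ f ∈ S, ∀ g ∈ S, (fun y => o.ev (f y) (g y)) ∈ S := by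
  have : Countable Op := Injective.countable (f := fun o : Op => match o with
    | .add => (0 : ℕ) | .sub => 1 | .mul => 2 | .div => 3) fun a b h => by
      cases a <;> cases b <;> first | rfl | simp at h
  let S : ℕ → Set (E → ℝ) := fun n =>
    n.rec C fun _ S => S ∪ ⋃ o : Op, image2 (fun f g y => o.ev (f y) (g y)) S S
  have mono : Monotone S := monotone_nat_of_le_succ fun n => subset_union_left
  refine ⟨⋃ n, S n, subset_iUnion S 0, countable_iUnion fun n => ?_, fun f hf => ?_,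
    fun o f hf g hg => ?_⟩
  · induction n with
    | zero => exact hC
    | succ n ih => exact ih.union (countable_iUnion fun o => ih.image2 ih _)
  · obtain ⟨n, hn⟩ := mem_iUnion.1 hf
    clear hf
    induction n generalizing f with
    | zero => exact h0 f hn
    | succ n ih =>
      rcases hn with h | h
      · exact ih f h
      · obtain ⟨o, a, ha, b, hb, rfl⟩ := mem_iUnion.1 h
        exact hP o a b (ih a ha) (ih b hb)
  · obtain ⟨a, ha⟩ := mem_iUnion.1 hf
    obtain ⟨b, hb⟩ := mem_iUnion.1 hg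
    exact mem_iUnion.2 ⟨max a b + 1, Or.inr (mem_iUnion.2 ⟨o, f, mono (le_max_left a b) ha, g,
      mono (le_max_right a b) hb, rfl⟩)⟩

theorem hor_last (q : ℝ) {m : ℕ} (y : Fin (m + 1) → ℝ) :
    hor q 0 (List.ofFn y) = hor q 0 (List.ofFn fun i : Fin m => y i.castSucc) * q +
      y (Fin.last m) := by
  rw [List.ofFn_succ_last, hor, List.foldl_append]; rfl

theorem hor_lin (q : ℝ) (m : ℕ) :
    ∃ L : (Fin m → ℝ) →L[ℝ] ℝ, ∀ y, L y = hor q 0 (List.ofFn y) := by
  induction m with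
  | zero => exact ⟨0, fun y => by simp [hor]⟩
  | succ m ih =>
    obtain ⟨L, hL⟩ := ih
    refine ⟨q • L.comp (ContinuousLinearMap.pi fun i => ContinuousLinearMap.proj
      (φ := fun _ => ℝ) i.castSucc) + ContinuousLinearMap.proj (φ := fun _ => ℝ) (Fin.last m), fun y => ?_⟩
    rw [hor_last, ← hL, mul_comm]; rfl

theorem hor_nonneg {q : ℝ} (hq : 0 ≤ q) {m : ℕ} (y : Fin m → ℝ) (hy : ∀ i, 0 < y i) :
    0 ≤ hor q 0 (List.ofFn y) := by
  induction m with
  | zero => simp [hor]
  | succ m ih =>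
    rw [hor_last]
    exact add_nonneg (mul_nonneg (ih _ fun i => hy _) hq) (hy _).le

theorem rank_thm (K : Subfield ℝ) (hK : (K : Set ℝ).Countable) (n : ℕ) (A : Set (List ℝ))
    (hT : Tame A) (hR : RankLE K n A) : ¬ Reduces Halting A := by
  rintro ⟨p, hp⟩
  choose l hl using fun q : ℕ => hor_lin q (n + 2)
  have h1 : ∀ q, l q (Pi.single (Fin.last (n + 1)) 1) = 1 := fun q => by
    obtain ⟨L, hL⟩ := hor_lin q (n + 1)
    rw [hl, hor_last, ← hL, show (fun i : Fin (n + 1) => (Pi.single (Fin.last (n + 1)) 1 :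
      Fin (n + 2) → ℝ) i.castSucc) = 0 from funext fun i => by simp [(Fin.castSucc_lt_last i).ne]]
    simp
  have h2 : ∀ v, v ≠ 0 → {q | l q v = 0}.Finite := fun v hv => by
    obtain ⟨i, hi⟩ := ne_iff.1 hv
    obtain ⟨B, -, hB⟩ := hor_roots (List.ofFn v) ⟨v i, List.mem_ofFn.2 ⟨i, rfl⟩, hi⟩
    exact B.finite_toSet.subset fun q hq => by_contra fun h => hB q h ((hl q v).symm.trans hq)
  obtain ⟨S, s0, sc, sn, so⟩ := exists_closed (E := Fin (n + 2) → ℝ) Nice
    (fun o f g a b => a.op b o)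
    (range (fun i y => y i) ∪ (fun c _ => c) '' {c | c ∈ 0 :: (p.code ++ rat.code)})
    ((countable_range _).union ((List.finite_toSet _).countable.image _)) (by
      rintro _ (⟨i, rfl⟩ | ⟨c, -, rfl⟩)
      · exact ⟨univ, isOpen_univ, dense_univ, (contDiff_apply ℝ ℝ i).contDiffOn⟩
      · exact ⟨univ, isOpen_univ, dense_univ, contDiffOn_const⟩)
  have : Countable S := sc.to_subtype
  have g1 : ∀ᶠ x in residual _, ∀ t : S, Large l (Pi.single (Fin.last (n + 1)) 1) x
      {y | 0 ≤ t.1 y ↔ 0 ≤ t.1 x} :=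
    eventually_countable_forall.2 fun t => large_of_loc h2 (loc_sign (by simp) (sn _ t.2))
  have g2 : ∀ᶠ x in residual _, ∀ L : List S, Large l (Pi.single (Fin.last (n + 1)) 1) x
      {y | L.map (·.1 y) ∈ A ↔ L.map (·.1 x) ∈ A} :=
    eventually_countable_forall.2 fun L => by
      have e : ∀ y, L.map (·.1 y) = List.ofFn fun i => (L.get i).1 y := fun y =>
        (List.ofFn_getElem_eq_map L (·.1 y)).symm
      simp only [e]
      exact large_of_loc h2 (loc_ask hK hT hR (by simp) fun i => sn _ (L.get i).2)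
  have g3 : ∀ᶠ x in residual _, ∀ q, Irrational (l q x) :=
    eventually_countable_forall.2 fun q => by
      have := meagre_pre (φ := l q) isOpen_univ (fun u _ => ⟨_, (l q).hasStrictFDerivAt,
        fun t => ⟨t • Pi.single (Fin.last (n + 1)) 1, by simp [h1]⟩⟩)
        (M := {x | Irrational x}ᶜ) (by rw [IsMeagre, compl_compl]; exact eventually_residual_irrational)
      filter_upwards [this] with x hx
      simpa using hx
  obtain ⟨x, hx, ⟨x1, x2⟩, x3⟩ := (dense_of_mem_residual ((g1.and g2).and g3)).inter_open_nonempty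
    (pi univ fun _ => Ioi 0) (isOpen_set_pi finite_univ fun _ _ => isOpen_Ioi)
    ⟨fun _ => 1, fun _ _ => mem_Ioi.2 one_pos⟩
  let F : Filter (Fin (n + 2) → ℝ) := ⟨{B | Large l (Pi.single (Fin.last (n + 1)) 1) x B},
    Large.univ x, Large.mono, Large.inter⟩
  have hc : ∀ c ∈ {c | c ∈ 0 :: (p.code ++ rat.code)}, ∃ t : S, ∀ y, t.1 y = c :=
    fun c h => ⟨⟨_, s0 (Or.inr ⟨c, h, rfl⟩)⟩, fun _ => rfl⟩
  obtain ⟨L, hL⟩ : ∃ L : List S, ∀ y, L.map (·.1 y) = rat.code ++ List.ofFn y := by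
    choose f hf using fun c : {c // c ∈ rat.code} => hc c (by simp [c.2])
    refine ⟨rat.code.attach.map f ++ List.ofFn fun i => ⟨_, s0 (Or.inl ⟨i, rfl⟩)⟩, fun y => ?_⟩
    rw [List.map_append, List.map_map, List.map_ofFn]
    exact congrArg₂ _ (by simp [comp_def, hf]) rfl
  have hi : ∀ y, init (rat.code ++ List.ofFn y) =
      sem (fun (t : S) y => t.1 y) (fun i => if i = 0 then L else []) y := fun y => by
    funext i
    by_cases h : i = 0 <;> simp [init, sem, h, hL]
  obtain ⟨s, e, hs⟩ := hp (rat.code ++ List.ofFn x)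
  obtain ⟨σ, rfl, hσ⟩ := symb (F := F) (x := x) (hc 0 (by simp)) hc
    (fun o a b => ⟨⟨_, so o _ a.2 _ b.2⟩, fun _ => rfl⟩) x1 x2 e (fun c h => by simp [h]) _ (hi x)
  obtain ⟨y, hy, q, r, hr⟩ := Large.meets h1 hσ
  obtain ⟨s', e', hs'⟩ := hp (rat.code ++ List.ofFn y)
  rw [hi] at e'
  cases e'.det hy
  obtain ⟨s'', h⟩ := mem_halting.1 (hs.2 (by
    simpa [sem] using hs'.1 (mem_halting.2 (rat_halts ((hl q y).symm.trans hr)))))
  refine rat_runs (fun q => ?_) s'' h
  have := hl q x ▸ x3 q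
  exact ⟨(hor_nonneg (Nat.cast_nonneg q) x fun i => hx i trivial).lt_of_ne this.ne_zero.symm, this⟩

end Pool.Agent.MP_833094_lc
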